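import Pool.Agent.Lib.MP_911b3a_co.Words

/-!
The class of words avoiding `2143` in which even letters are followed by a smaller letter.
-/

open Polynomial

namespace Pool.Agent.Lib.MP_911b3a_co

open Classical

noncomputable section

/-- inserting a new maximum at the site does not create `2143` -/
def actA (ru v : List ℕ) : Prop :=
  ∀ a b c, List.Sublist [a, b] ru → c ∈ v → a < b → c ≤ b

/-- avoidance of `2143` -/
def avA (w : List ℕ) : Prop :=
  ∀ a b c d, List.Sublist [b, a, d, c] w → a < b → b < c → c < d → False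

def clsA (w : List ℕ) : Prop := EC w ∧ avA w

def phiA (ru v : List ℕ) : K :=
  if isValid ru ∧ isInc ru then (if isOpen ru v then X - 1 else X)
  else if isValid ru ∧ actA ru v then (if isOpen ru v then Y else 1 + Y)
  else (if isOpen ru v then 0 else 1)

def wA : List ℕ → List ℕ → K
  | _, [] => 1
  | ru, c :: v => phiA ru (c :: v) * wA (c :: ru) v

def LA : List ℕ → List ℕ → K
  | [], _ => 1
  | c :: ru, v => LA ru (c :: v) * phiA ru (c :: v)

lemma wA_split : ∀ (ru v : List ℕ), wA [] (ru.reverseAux v) = LA ru v * wA ru v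
  | [], v => by simp [LA, List.reverseAux]
  | c :: ru, v => by
    have ih := wA_split ru (c :: v)
    have h0 : (c :: ru).reverseAux v = ru.reverseAux (c :: v) := rfl
    rw [h0, ih, LA, wA]
    ring

def ph1 (ru : List ℕ) (c : ℕ) : K :=
  if isValid ru ∧ isInc ru then (if isOpen ru [c] then X - 1 else X)
  else (if isOpen ru [c] then 0 else 1)

def PhA : List ℕ → K
  | [] => 1
  | c :: ru => PhA ru * ph1 ru c

lemma isOpen_head (ru : List ℕ) (c : ℕ) (v : List ℕ) : isOpen ru (c :: v) ↔ isOpen ru [c] := by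
  cases ru <;> exact Iff.rfl

lemma actA_of_isInc {ru v : List ℕ} (h : isInc ru) : actA ru v := by
  intro a b c hab _ hlt
  have := isInc_sub h hab
  omega

lemma not_actA {x : ℕ} {ru v : List ℕ} (hx : x ∈ v) (hru : ∀ a ∈ ru, a < x) (h : ¬ isInc ru) :
    ¬ actA ru v := by
  intro hact
  obtain ⟨a, b, hab, hlt⟩ := not_isInc h
  have := hact a b x hab hx hlt
  have hb : b ∈ ru := hab.subset (by simp)
  have := hru b hb
  omega

lemma phiA_eq_ph1 {x : ℕ} {ru v : List ℕ} {c : ℕ} (hx : x ∈ c :: v) (hru : ∀ a ∈ ru, a < x) :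
    phiA ru (c :: v) = ph1 ru c := by
  unfold phiA ph1
  by_cases hi : isValid ru ∧ isInc ru
  · simp [hi, isOpen_head ru c v]
  · rw [if_neg hi, if_neg hi]
    have : ¬ (isValid ru ∧ actA ru (c :: v)) := by
      rintro ⟨h1, h2⟩
      exact not_actA hx hru (fun h => hi ⟨h1, h⟩) h2
    rw [if_neg this]
    simp [isOpen_head ru c v]

lemma LA_eq {x : ℕ} : ∀ {ru v : List ℕ}, x ∈ v → (∀ a ∈ ru, a < x) → LA ru v = PhA ru
  | [], _, _, _ => rfl
  | c :: ru, v, hx, hru => by
    have h1 : x ∈ c :: v := List.mem_cons_of_mem _ hx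
    have h2 : ∀ a ∈ ru, a < x := fun a ha => hru a (List.mem_cons_of_mem _ ha)
    rw [LA, PhA, LA_eq h1 h2, phiA_eq_ph1 h1 h2]

lemma not_isInc_cons {c : ℕ} {ru : List ℕ} (h : ¬ isInc ru) : ¬ isInc (c :: ru) := by
  intro h'
  exact h (List.pairwise_cons.1 h').2

lemma wA_const : ∀ (v ru : List ℕ), ¬ isInc ru → ∃ q, wA ru v = C q
  | [], ru, _ => ⟨1, by simp [wA]⟩
  | c :: v, ru, h => by
    obtain ⟨q, hq⟩ := wA_const v (c :: ru) (not_isInc_cons h)
    have : ∃ q', phiA ru (c :: v) = C q' := by
      unfold phiA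
      rw [if_neg (fun hh => h hh.2)]
      split_ifs
      · exact ⟨yy, rfl⟩
      · exact ⟨1 + yy, by simp [Y]⟩
      · exact ⟨0, by simp⟩
      · exact ⟨1, by simp⟩
    obtain ⟨q', hq'⟩ := this
    exact ⟨q' * q, by rw [wA, hq, hq', C_mul]⟩

lemma sublist_pair_insert {x p q : ℕ} {l ru : List ℕ} (h : List.Sublist [p, q] (l ++ x :: ru))
    (hru : ∀ a ∈ ru, a < x) (hpq : p < q) :
    List.Sublist [p, q] (l ++ ru) ∨ q = x := by
  rw [List.sublist_append_iff] at h
  obtain ⟨l1, l2, h12, h1, h2⟩ := h
  rw [List.sublist_cons_iff] at h2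
  rcases h2 with h2 | ⟨r, hr, h2⟩
  · left
    rw [h12]
    exact h1.append h2
  · subst hr
    rcases l1 with _ | ⟨a, _ | ⟨b, l1⟩⟩
    · simp only [List.nil_append, List.cons.injEq] at h12
      obtain ⟨rfl, rfl⟩ := h12
      have := hru q (h2.subset (by simp))
      omega
    · simp only [List.cons_append, List.nil_append, List.cons.injEq] at h12
      right
      exact h12.2.1
    · simp only [List.cons_append, List.cons.injEq] at h12
      have := congrArg List.length h12.2.2
      simp at this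

lemma actA_insert {x : ℕ} {l ru v : List ℕ} (hru : ∀ a ∈ ru, a < x) (hv : ∀ a ∈ v, a < x) :
    actA (l ++ x :: ru) v ↔ actA (l ++ ru) v := by
  constructor
  · intro h a b c hab hc hlt
    refine h a b c (hab.trans ?_) hc hlt
    exact List.Sublist.append (List.Sublist.refl l) (List.sublist_cons_self x ru)
  · intro h a b c hab hc hlt
    rcases sublist_pair_insert hab hru hlt with h1 | h1
    · exact h a b c h1 hc hlt
    · subst h1; exact (hv c hc).le

lemma phiA_sg {x a : ℕ} {ru1 ru v : List ℕ} (ha : a < x) (hru : ∀ b ∈ ru, b < x)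
    (hv : ∀ b ∈ v, b < x) :
    phiA ((a :: ru1) ++ x :: ru) v = sg (phiA ((a :: ru1) ++ ru) v) := by
  have hval : isValid ((a :: ru1) ++ x :: ru) ↔ isValid ((a :: ru1) ++ ru) := Iff.rfl
  have hop : isOpen ((a :: ru1) ++ x :: ru) v ↔ isOpen ((a :: ru1) ++ ru) v := by
    cases v <;> exact Iff.rfl
  have hni : ¬ isInc ((a :: ru1) ++ x :: ru) := by
    intro h
    have hs : List.Sublist [a, x] ((a :: ru1) ++ x :: ru) := by
      have : [a, x] = [a] ++ [x] := rfl
      rw [this]
      apply List.Sublist.append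
      · simp
      · simp
    have := isInc_sub h hs
    omega
  have hact := actA_insert (l := a :: ru1) hru hv
  unfold phiA
  rw [if_neg (fun h => hni h.2)]
  simp only [hval, hop, hact]
  by_cases h1 : isValid ((a :: ru1) ++ ru) ∧ isInc ((a :: ru1) ++ ru)
  · have h2 : isValid ((a :: ru1) ++ ru) ∧ actA ((a :: ru1) ++ ru) v :=
      ⟨h1.1, actA_of_isInc h1.2⟩
    rw [if_pos h1, if_pos h2]
    split_ifs <;> simp [sg_X]
  · rw [if_neg h1]
    split_ifs <;> simp [sg_Y]

lemma wA_sg {x : ℕ} : ∀ (v : List ℕ) (a : ℕ) (ru1 ru : List ℕ), (∀ b ∈ (a :: ru1), b < x) →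
    (∀ b ∈ ru, b < x) → (∀ b ∈ v, b < x) →
    wA ((a :: ru1) ++ x :: ru) v = sg (wA ((a :: ru1) ++ ru) v)
  | [], _, _, _, _, _, _ => by simp [wA]
  | c :: v, a, ru1, ru, h1, h2, h3 => by
    have ih := wA_sg v c (a :: ru1) ru
      (by intro b hb; rcases List.mem_cons.1 hb with rfl | hb
          · exact h3 _ (by simp)
          · exact h1 b hb) h2 (fun b hb => h3 b (by simp [hb]))
    rw [wA, wA, map_mul, phiA_sg (h1 a (by simp)) h2 h3]
    congr 1

lemma avA_insert {x : ℕ} {ru v : List ℕ} (hru : ∀ a ∈ ru, a < x) (hv : ∀ a ∈ v, a < x) :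
    avA (ru.reverseAux (x :: v)) ↔ avA (ru.reverseAux v) ∧ actA ru v := by
  simp only [List.reverseAux_eq]
  have hru' : ∀ a ∈ ru.reverse, a < x := by simpa using hru
  constructor
  · intro h
    constructor
    · intro a b c d hs
      refine h a b c d (hs.trans ?_)
      exact List.Sublist.append (List.Sublist.refl _) (List.sublist_cons_self x v)
    · intro a b c hab hc hlt
      by_contra hcon
      have hs : List.Sublist [b, a, x, c] (ru.reverse ++ x :: v) := by
        have : [b, a, x, c] = [b, a] ++ [x, c] := rfl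
        rw [this]
        apply List.Sublist.append
        · have := hab.reverse
          simpa using this
        · exact List.Sublist.cons_cons x (List.singleton_sublist.2 hc)
      exact h a b c x hs hlt (by omega) (hv c hc)
  · rintro ⟨h1, h2⟩ a b c d hs hab hbc hcd
    rw [List.sublist_append_iff] at hs
    obtain ⟨l1, l2, h12, hs1, hs2⟩ := hs
    rw [List.sublist_cons_iff] at hs2
    rcases hs2 with hs2 | ⟨r, hr, hs2⟩
    · exact h1 a b c d (by rw [h12]; exact hs1.append hs2) hab hbc hcd
    · subst hr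
      rcases l1 with _ | ⟨p, _ | ⟨q, _ | ⟨s, _ | ⟨t, l1⟩⟩⟩⟩
      · simp only [List.nil_append, List.cons.injEq] at h12
        obtain ⟨rfl, rfl⟩ := h12
        have := hv c (hs2.subset (by simp))
        omega
      · simp only [List.cons_append, List.nil_append, List.cons.injEq] at h12
        obtain ⟨rfl, rfl, rfl⟩ := h12
        have := hru' b (hs1.subset (by simp))
        omega
      · simp only [List.cons_append, List.nil_append, List.cons.injEq] at h12
        obtain ⟨rfl, rfl, rfl, rfl⟩ := h12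
        have hsub : List.Sublist [a, b] ru := by
          have := hs1.reverse
          simpa using this
        have := h2 a b c hsub (hs2.subset (by simp)) hab
        omega
      · simp only [List.cons_append, List.nil_append, List.cons.injEq] at h12
        obtain ⟨rfl, rfl, rfl, rfl, rfl⟩ := h12
        have := hru' d (hs1.subset (by simp))
        omega
      · simp only [List.cons_append, List.cons.injEq] at h12
        have := congrArg List.length h12.2.2.2.2
        simp at this

lemma clsA_insert {x : ℕ} {ru v : List ℕ} (hru : ∀ a ∈ ru, a < x) (hv : ∀ a ∈ v, a < x) :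
    clsA (ru.reverseAux (x :: v)) ↔
      clsA (ru.reverseAux v) ∧ (isValid ru ∧ actA ru v ∧ (x % 2 = 0 → v ≠ [])) := by
  unfold clsA
  rw [EC_insert x v hv ru hru, avA_insert hru hv]
  tauto

/-- weight of a word, zero outside the class -/
def GA (w : List ℕ) : K := if clsA w then wA [] w else 0

/-- data about a word before insertion of `x` -/
structure Good (x : ℕ) (w : List ℕ) : Prop where
  nd : w.Nodup
  ec : EC w
  lt : ∀ a ∈ w, a < x
  ni : ¬ isInc w.reverse

lemma Good.ru_lt {x : ℕ} {ru v : List ℕ} (h : Good x (ru.reverseAux v)) : ∀ a ∈ ru, a < x := by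
  intro a ha
  apply h.lt
  rw [List.reverseAux_eq]
  simp [ha]

lemma Good.v_lt {x : ℕ} {ru v : List ℕ} (h : Good x (ru.reverseAux v)) : ∀ a ∈ v, a < x := by
  intro a ha
  apply h.lt
  rw [List.reverseAux_eq]
  simp [ha]

lemma Good.ne {x a c : ℕ} {ru v : List ℕ} (h : Good x ((a :: ru).reverseAux (c :: v))) :
    a ≠ c := by
  have := h.nd
  rw [List.reverseAux_eq] at this
  intro hac
  subst hac
  have h2 := List.nodup_append.1 this
  exact h2.2.2 a (by simp) a (by simp) rfl

lemma Good.even_gt {x a c : ℕ} {ru v : List ℕ} (h : Good x ((a :: ru).reverseAux (c :: v)))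
    (ha : a % 2 = 0) : c < a := by
  have := h.ec
  have h0 : (a :: ru).reverseAux (c :: v) = ru.reverseAux (a :: c :: v) := rfl
  rw [h0, List.reverseAux_eq] at this
  have h1 := EC_append_right _ _ this
  obtain ⟨d, hd, hlt⟩ := h1.1 ha
  have : c = d := by simpa using hd
  omega

lemma Good.last_valid {x : ℕ} {ru : List ℕ} (h : Good x (ru.reverseAux [])) : isValid ru := by
  cases ru with
  | nil => trivial
  | cons a ru =>
    have := h.ec
    have h0 : (a :: ru).reverseAux [] = ru.reverseAux [a] := rfl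
    rw [h0, List.reverseAux_eq] at this
    have h1 := EC_append_right _ _ this
    show a % 2 = 1
    by_contra hne
    obtain ⟨d, hd, _⟩ := h1.1 (by omega)
    simp at hd

lemma Good.last_ni {x : ℕ} {ru : List ℕ} (h : Good x (ru.reverseAux [])) : ¬ isInc ru := by
  have := h.ni
  rw [List.reverseAux_eq] at this
  simpa using this

lemma isInc_x {x : ℕ} {ru : List ℕ} (hru : ∀ a ∈ ru, a < x) : isInc (x :: ru) ↔ isInc ru := by
  unfold isInc
  rw [List.pairwise_cons]
  constructor
  · exact fun h => h.2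
  · exact fun h => ⟨fun a ha => (hru a ha).le, h⟩

lemma GA_term {x : ℕ} {ru : List ℕ} {c : ℕ} {v : List ℕ} (hg : Good x (ru.reverseAux (c :: v)))
    (hc : clsA (ru.reverseAux (c :: v))) :
    GA (ru.reverseAux (x :: c :: v)) =
      if isValid ru ∧ actA ru (c :: v) then
        PhA ru * ((if isInc ru then X else 1) *
          ((if x % 2 = 1 then (if isInc ru then X - 1 else Y) else 1) * sg (wA (c :: ru) v)))
      else 0 := by
  have hru := hg.ru_lt
  have hv := hg.v_lt
  unfold GA
  have hiff : clsA (ru.reverseAux (x :: c :: v)) ↔ (isValid ru ∧ actA ru (c :: v)) := by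
    rw [clsA_insert hru hv]
    constructor
    · rintro ⟨_, h1, h2, _⟩; exact ⟨h1, h2⟩
    · rintro ⟨h1, h2⟩; exact ⟨hc, h1, h2, by simp⟩
  by_cases h : isValid ru ∧ actA ru (c :: v)
  · rw [if_pos (hiff.2 h), if_pos h, wA_split, LA_eq (x := x) (by simp) hru]
    congr 1
    rw [wA]
    have e1 : phiA ru (x :: c :: v) = if isInc ru then X else 1 := by
      rw [phiA_eq_ph1 (x := x) (by simp) hru]
      unfold ph1
      have hop : ¬ isOpen ru [x] := by
        cases ru with
        | nil => exact fun h => h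
        | cons a ru => rintro ⟨_, h2⟩; have := hru a (by simp); omega
      simp [h.1, hop]
    rw [e1]
    congr 1
    rw [wA]
    have e3 : wA (c :: x :: ru) v = sg (wA (c :: ru) v) := by
      have := wA_sg (x := x) v c [] ru
        (by intro b hb; simp at hb; subst hb; exact hv _ (by simp)) hru
        (fun b hb => hv b (by simp [hb]))
      simpa using this
    rw [e3]
    congr 1
    have hcx : c < x := hv c (by simp)
    have hactx : actA (x :: ru) (c :: v) := by
      have := actA_insert (x := x) (l := []) hru hv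
      exact this.2 h.2
    unfold phiA
    rw [isInc_x hru]
    by_cases hx : x % 2 = 1
    · have hvx : isValid (x :: ru) := hx
      have hox : isOpen (x :: ru) (c :: v) := ⟨hx, hcx⟩
      simp only [hx, hvx, hox, hactx, true_and, and_true, if_true]
    · have hvx : ¬ isValid (x :: ru) := hx
      have hox : ¬ isOpen (x :: ru) (c :: v) := fun h => hx h.1
      simp only [hx, hvx, hox, false_and, if_false]
  · rw [if_neg (fun h' => h (hiff.1 h')), if_neg h]

lemma GA_term_end {x : ℕ} {ru : List ℕ} (hg : Good x (ru.reverseAux []))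
    (hc : clsA (ru.reverseAux [])) :
    GA (ru.reverseAux [x]) = if x % 2 = 1 then PhA ru else 0 := by
  have hru := hg.ru_lt
  have hval := hg.last_valid
  have hni := hg.last_ni
  unfold GA
  have hiff : clsA (ru.reverseAux [x]) ↔ x % 2 = 1 := by
    rw [clsA_insert hru (by simp)]
    constructor
    · rintro ⟨_, _, _, h3⟩
      by_contra h
      exact h3 (by omega) rfl
    · intro h
      exact ⟨hc, hval, by intro a b c _ hc; simp at hc, by omega⟩
  by_cases h : x % 2 = 1
  · rw [if_pos (hiff.2 h), if_pos h, wA_split, LA_eq (x := x) (by simp) hru]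
    rw [wA, wA]
    have e1 : phiA ru [x] = 1 := by
      rw [phiA_eq_ph1 (x := x) (by simp) hru]
      unfold ph1
      have hop : ¬ isOpen ru [x] := by
        cases ru with
        | nil => exact fun h => h
        | cons a ru => rintro ⟨_, h2⟩; have := hru a (by simp); omega
      simp [hni, hop]
    rw [e1]; ring
  · rw [if_neg (fun h' => h (hiff.1 h')), if_neg h]

/-- the local analysis at a site shared by the odd and the even case -/
lemma site_casesA {x : ℕ} {ru : List ℕ} {c : ℕ} {v : List ℕ} (hg : Good x (ru.reverseAux (c :: v))) :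
    (¬ isValid ru ∧ ph1 ru c = 1 ∧ phiA ru (c :: v) = 1) ∨
    (isValid ru ∧ isInc ru ∧ isOpen ru (c :: v) ∧ ph1 ru c = X - 1 ∧ phiA ru (c :: v) = X - 1 ∧
      ¬ isInc (c :: ru)) ∨
    (isValid ru ∧ isInc ru ∧ ph1 ru c = X ∧ phiA ru (c :: v) = X) ∨
    (isValid ru ∧ ¬ isInc ru ∧ actA ru (c :: v) ∧ ph1 ru c = 0 ∧ phiA ru (c :: v) = Y) ∨
    (isValid ru ∧ ¬ isInc ru ∧ actA ru (c :: v) ∧ ph1 ru c = 1 ∧ phiA ru (c :: v) = 1 + Y) ∨
    (isValid ru ∧ ¬ isInc ru ∧ ¬ actA ru (c :: v) ∧ ph1 ru c = 0 ∧ phiA ru (c :: v) = 0) ∨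
    (isValid ru ∧ ¬ isInc ru ∧ ¬ actA ru (c :: v) ∧ ph1 ru c = 1 ∧ phiA ru (c :: v) = 1) := by
  have hoh := isOpen_head ru c v
  by_cases hval : isValid ru
  · by_cases hinc : isInc ru
    · by_cases hop : isOpen ru (c :: v)
      · right; left
        refine ⟨hval, hinc, hop, ?_, ?_, ?_⟩
        · simp [ph1, hval, hinc, hoh.1 hop]
        · simp [phiA, hval, hinc, hop]
        · intro h
          cases ru with
          | nil => exact hop
          | cons a ru =>
            have h2 := (List.pairwise_cons.1 h).1 a (by simp)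
            have h3 : c < a := hop.2
            omega
      · right; right; left
        have hop' : ¬ isOpen ru [c] := fun h => hop (hoh.2 h)
        exact ⟨hval, hinc, by simp [ph1, hval, hinc, hop'], by simp [phiA, hval, hinc, hop]⟩
    · by_cases hact : actA ru (c :: v)
      · by_cases hop : isOpen ru (c :: v)
        · right; right; right; left
          exact ⟨hval, hinc, hact, by simp [ph1, hinc, hoh.1 hop],
            by simp [phiA, hval, hinc, hop, hact]⟩
        · right; right; right; right; left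
          have hop' : ¬ isOpen ru [c] := fun h => hop (hoh.2 h)
          exact ⟨hval, hinc, hact, by simp [ph1, hinc, hop'],
            by simp [phiA, hval, hinc, hop, hact]⟩
      · by_cases hop : isOpen ru (c :: v)
        · right; right; right; right; right; left
          exact ⟨hval, hinc, hact, by simp [ph1, hinc, hoh.1 hop],
            by simp [phiA, hinc, hop, hact]⟩
        · right; right; right; right; right; right
          have hop' : ¬ isOpen ru [c] := fun h => hop (hoh.2 h)
          exact ⟨hval, hinc, hact, by simp [ph1, hinc, hop'],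
            by simp [phiA, hinc, hop, hact]⟩
  · left
    have hop : ¬ isOpen ru (c :: v) := by
      cases ru with
      | nil => exact fun h => h
      | cons a ru => exact fun h => hval h.1
    have hop' : ¬ isOpen ru [c] := fun h => hop (hoh.2 h)
    exact ⟨hval, by simp [ph1, hval, hop'], by simp [phiA, hval, hop]⟩

lemma mainA_odd {x : ℕ} (hx : x % 2 = 1) : ∀ (v ru : List ℕ), Good x (ru.reverseAux v) →
    clsA (ru.reverseAux v) → zsum GA x ru v = PhA ru * OO (wA ru v)
  | [], ru, hg, hc => by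
    have h1 : OO (1 : K) = 1 := by have := OO_C 1; simpa using this
    rw [zsum, GA_term_end hg hc, if_pos hx, wA, h1, mul_one]
  | c :: v, ru, hg, hc => by
    have ih := mainA_odd hx v (c :: ru) hg hc
    rw [zsum, ih, GA_term hg hc, PhA, wA, if_pos hx]
    rcases site_casesA hg with ⟨h1, h2, h3⟩ | ⟨h1, h2, h3, h4, h5, h6⟩ | ⟨h1, h2, h3, h4⟩ |
      ⟨h1, h2, h3, h4, h5⟩ | ⟨h1, h2, h3, h4, h5⟩ | ⟨h1, h2, h3, h4, h5⟩ | ⟨h1, h2, h3, h4, h5⟩
    · rw [h2, h3, if_neg (fun h => h1 h.1)]; simp
    · obtain ⟨q, hq⟩ := wA_const v (c :: ru) h6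
      rw [if_pos ⟨h1, actA_of_isInc h2⟩, if_pos h2, if_pos h2, h4, h5, hq, OO_C, OO_X1, sg_C]
      ring
    · rw [if_pos ⟨h1, actA_of_isInc h2⟩, if_pos h2, if_pos h2, h3, h4, OO_X]
      ring
    · obtain ⟨q, hq⟩ := wA_const v (c :: ru) (not_isInc_cons h2)
      have e : OO (Y * C q) = Y * C q := by rw [Y, ← C_mul, OO_C]
      rw [if_pos ⟨h1, h3⟩, if_neg h2, if_neg h2, h4, h5, hq, e, sg_C]
      ring
    · obtain ⟨q, hq⟩ := wA_const v (c :: ru) (not_isInc_cons h2)
      have e : OO (Y * C q) = Y * C q := by rw [Y, ← C_mul, OO_C]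
      have e2 : OO ((1 + Y) * C q) = (1 + Y) * C q := by
        rw [add_mul, one_mul, map_add, e, OO_C]
      rw [if_pos ⟨h1, h3⟩, if_neg h2, if_neg h2, h4, h5, hq, e2, sg_C, OO_C]
      ring
    · rw [h4, h5, if_neg (fun h => h3 h.2)]; simp
    · rw [h4, h5, if_neg (fun h => h3 h.2)]; simp

lemma mainA_even {x : ℕ} (hx : x % 2 = 0) : ∀ (v ru : List ℕ), Good x (ru.reverseAux v) →
    clsA (ru.reverseAux v) → zsum GA x ru v = PhA ru * EE (wA ru v)
  | [], ru, hg, hc => by
    have h1 : EE (1 : K) = 0 := by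
      have := EE_C 1
      simpa using this
    rw [zsum, GA_term_end hg hc, if_neg (by omega), wA, h1, mul_zero]
  | c :: v, ru, hg, hc => by
    have ih := mainA_even hx v (c :: ru) hg hc
    have hx' : ¬ x % 2 = 1 := by omega
    rw [zsum, ih, GA_term hg hc, PhA, wA, if_neg hx']
    rcases site_casesA hg with ⟨h1, h2, h3⟩ | ⟨h1, h2, h3, h4, h5, h6⟩ | ⟨h1, h2, h3, h4⟩ |
      ⟨h1, h2, h3, h4, h5⟩ | ⟨h1, h2, h3, h4, h5⟩ | ⟨h1, h2, h3, h4, h5⟩ | ⟨h1, h2, h3, h4, h5⟩
    · rw [h2, h3, if_neg (fun h => h1 h.1)]; simp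
    · obtain ⟨q, hq⟩ := wA_const v (c :: ru) h6
      rw [if_pos ⟨h1, actA_of_isInc h2⟩, if_pos h2, h4, h5, hq, EE_C, EE_X1, sg_C]
      ring
    · rw [if_pos ⟨h1, actA_of_isInc h2⟩, if_pos h2, h3, h4, EE_X]
      ring
    · obtain ⟨q, hq⟩ := wA_const v (c :: ru) (not_isInc_cons h2)
      rw [if_pos ⟨h1, h3⟩, if_neg h2, h4, h5, hq, EE_Y, sg_C]
      ring
    · obtain ⟨q, hq⟩ := wA_const v (c :: ru) (not_isInc_cons h2)
      rw [if_pos ⟨h1, h3⟩, if_neg h2, h4, h5, hq, EE_Y1, sg_C, EE_C]
      ring
    · rw [h4, h5, if_neg (fun h => h3 h.2)]; simp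
    · rw [h4, h5, if_neg (fun h => h3 h.2)]; simp

end

end Pool.Agent.Lib.MP_911b3a_co
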