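import Pool.Agent.Lib.MP_911b3a_co.ClassA

/-!
The class of words avoiding `3421` in which even letters are followed by a smaller letter.
-/

open Polynomial

namespace Pool.Agent.Lib.MP_911b3a_co

open Classical

noncomputable section

/-- inserting a new maximum at the site does not create `3421` -/
def actB (ru v : List ℕ) : Prop :=
  ∀ b a c, List.Sublist [b, a] v → c ∈ ru → a < b → c ≤ b

/-- avoidance of `3421` -/
def avB (w : List ℕ) : Prop :=
  ∀ a b c d, List.Sublist [c, d, b, a] w → a < b → b < c → c < d → False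

def clsB (w : List ℕ) : Prop := EC w ∧ avB w

def phiB (ru v : List ℕ) : K :=
  if isValid ru ∧ isIncV v then (if isOpen ru v then X - 1 else X)
  else if isValid ru ∧ actB ru v then (if isOpen ru v then Y else 1 + Y)
  else (if isOpen ru v then 0 else 1)

def wB : List ℕ → List ℕ → K
  | [], _ => 1
  | c :: ru, v => phiB (c :: ru) v * wB ru (c :: v)

def RB : List ℕ → List ℕ → K
  | _, [] => 1
  | ru, c :: v => phiB (c :: ru) v * RB (c :: ru) v

lemma wB_split : ∀ (v ru : List ℕ), wB (v.reverseAux ru) [] = wB ru v * RB ru v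
  | [], ru => by simp [RB, List.reverseAux]
  | c :: v, ru => by
    have ih := wB_split v (c :: ru)
    have h0 : (c :: v).reverseAux ru = v.reverseAux (c :: ru) := rfl
    rw [h0, ih, wB, RB]
    ring

def psi1 (c : ℕ) (v : List ℕ) : K :=
  if c % 2 = 1 ∧ isIncV v then (if isOpen [c] v then X - 1 else X)
  else (if isOpen [c] v then 0 else 1)

def PsB : List ℕ → K
  | [] => 1
  | c :: v => psi1 c v * PsB v

lemma isOpen_head' (ru : List ℕ) (c : ℕ) (v : List ℕ) : isOpen (c :: ru) v ↔ isOpen [c] v := by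
  cases v <;> exact Iff.rfl

lemma actB_of_isIncV {ru v : List ℕ} (h : isIncV v) : actB ru v := by
  intro b a c hab _ hlt
  have := isIncV_sub h hab
  omega

lemma not_actB {x : ℕ} {ru v : List ℕ} (hx : x ∈ ru) (hv : ∀ a ∈ v, a < x) (h : ¬ isIncV v) :
    ¬ actB ru v := by
  intro hact
  obtain ⟨a, b, hab, hlt⟩ := not_isIncV h
  have := hact a b x hab hx hlt
  have hb : a ∈ v := hab.subset (by simp)
  have := hv a hb
  omega

lemma phiB_eq_psi1 {x : ℕ} {ru v : List ℕ} {c : ℕ} (hx : x ∈ c :: ru) (hv : ∀ a ∈ v, a < x) :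
    phiB (c :: ru) v = psi1 c v := by
  unfold phiB psi1
  have hval : isValid (c :: ru) ↔ c % 2 = 1 := Iff.rfl
  rw [hval, isOpen_head' ru c v]
  by_cases hi : c % 2 = 1 ∧ isIncV v
  · simp [hi]
  · rw [if_neg hi, if_neg hi]
    have : ¬ (c % 2 = 1 ∧ actB (c :: ru) v) := by
      rintro ⟨h1, h2⟩
      exact not_actB hx hv (fun h => hi ⟨h1, h⟩) h2
    rw [if_neg this]

lemma RB_eq {x : ℕ} : ∀ {v ru : List ℕ}, x ∈ ru → (∀ a ∈ v, a < x) → RB ru v = PsB v
  | [], _, _, _ => rfl
  | c :: v, ru, hx, hv => by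
    have h1 : x ∈ c :: ru := List.mem_cons_of_mem _ hx
    have h2 : ∀ a ∈ v, a < x := fun a ha => hv a (List.mem_cons_of_mem _ ha)
    rw [RB, PsB, RB_eq h1 h2, phiB_eq_psi1 h1 h2]

lemma not_isIncV_cons {c : ℕ} {v : List ℕ} (h : ¬ isIncV v) : ¬ isIncV (c :: v) := by
  intro h'
  exact h (List.pairwise_cons.1 h').2

lemma wB_const : ∀ (ru v : List ℕ), ¬ isIncV v → ∃ q, wB ru v = C q
  | [], v, _ => ⟨1, by simp [wB]⟩
  | c :: ru, v, h => by
    obtain ⟨q, hq⟩ := wB_const ru (c :: v) (not_isIncV_cons h)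
    have : ∃ q', phiB (c :: ru) v = C q' := by
      unfold phiB
      rw [if_neg (fun hh => h hh.2)]
      split_ifs
      · exact ⟨yy, rfl⟩
      · exact ⟨1 + yy, by simp [Y]⟩
      · exact ⟨0, by simp⟩
      · exact ⟨1, by simp⟩
    obtain ⟨q', hq'⟩ := this
    exact ⟨q' * q, by rw [wB, hq, hq', C_mul]⟩

lemma sublist_pair_insert' {x p q : ℕ} {l v : List ℕ} (h : List.Sublist [p, q] (l ++ x :: v))
    (hl : ∀ a ∈ l, a < x) (hpq : q < p) :
    List.Sublist [p, q] (l ++ v) ∨ p = x := by
  rw [List.sublist_append_iff] at h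
  obtain ⟨l1, l2, h12, h1, h2⟩ := h
  rw [List.sublist_cons_iff] at h2
  rcases h2 with h2 | ⟨r, hr, h2⟩
  · left
    rw [h12]
    exact h1.append h2
  · subst hr
    rcases l1 with _ | ⟨a, _ | ⟨b, l1⟩⟩
    · simp only [List.nil_append, List.cons.injEq] at h12
      right
      exact h12.1
    · simp only [List.cons_append, List.nil_append, List.cons.injEq] at h12
      obtain ⟨rfl, rfl, _⟩ := h12
      have := hl p (h1.subset (by simp))
      omega
    · simp only [List.cons_append, List.cons.injEq] at h12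
      have := congrArg List.length h12.2.2
      simp at this

lemma actB_insert {x : ℕ} {l ru v : List ℕ} (hru : ∀ a ∈ ru, a < x) (hl : ∀ a ∈ l, a < x) :
    actB ru (l ++ x :: v) ↔ actB ru (l ++ v) := by
  constructor
  · intro h a b c hab hc hlt
    refine h a b c (hab.trans ?_) hc hlt
    exact List.Sublist.append (List.Sublist.refl l) (List.sublist_cons_self x v)
  · intro h a b c hab hc hlt
    rcases sublist_pair_insert' hab hl hlt with h1 | h1
    · exact h a b c h1 hc hlt
    · subst h1; exact (hru c hc).le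

lemma not_isIncV_insert {x : ℕ} {l v : List ℕ} {d : ℕ} (hd : d < x) :
    ¬ isIncV (l ++ x :: d :: v) := by
  intro h
  have hs : List.Sublist [x, d] (l ++ x :: d :: v) := by
    have : [x, d] = [] ++ [x, d] := rfl
    rw [this]
    apply List.Sublist.append
    · simp
    · exact List.Sublist.cons_cons x (List.Sublist.cons_cons d (List.nil_sublist _))
  have := isIncV_sub h hs
  omega

lemma phiB_sg {x a d : ℕ} {v1 ru v : List ℕ} (ha : a < x) (hv1 : ∀ b ∈ v1, b < x)
    (hru : ∀ b ∈ ru, b < x) (hd : d < x) :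
    phiB ru ((a :: v1) ++ x :: d :: v) = sg (phiB ru ((a :: v1) ++ d :: v)) := by
  have hop : isOpen ru ((a :: v1) ++ x :: d :: v) ↔ isOpen ru ((a :: v1) ++ d :: v) := by
    cases ru <;> exact Iff.rfl
  have hni : ¬ isIncV ((a :: v1) ++ x :: d :: v) := not_isIncV_insert hd
  have hact := actB_insert (l := a :: v1) (v := d :: v) hru
    (by intro b hb; rcases List.mem_cons.1 hb with rfl | hb
        · exact ha
        · exact hv1 b hb)
  unfold phiB
  rw [if_neg (fun h => hni h.2)]
  simp only [hop, hact]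
  by_cases h1 : isValid ru ∧ isIncV ((a :: v1) ++ d :: v)
  · have h2 : isValid ru ∧ actB ru ((a :: v1) ++ d :: v) :=
      ⟨h1.1, actB_of_isIncV h1.2⟩
    rw [if_pos h1, if_pos h2]
    split_ifs <;> simp [sg_X]
  · rw [if_neg h1]
    split_ifs <;> simp [sg_Y]

lemma wB_sg {x d : ℕ} {v : List ℕ} (hd : d < x) : ∀ (ru : List ℕ) (a : ℕ) (v1 : List ℕ),
    (∀ b ∈ (a :: v1), b < x) → (∀ b ∈ ru, b < x) →
    wB ru ((a :: v1) ++ x :: d :: v) = sg (wB ru ((a :: v1) ++ d :: v))
  | [], _, _, _, _ => by simp [wB]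
  | c :: ru, a, v1, h1, h2 => by
    have ih := wB_sg (v := v) hd ru c (a :: v1)
      (by intro b hb; rcases List.mem_cons.1 hb with rfl | hb
          · exact h2 _ (by simp)
          · exact h1 b hb) (fun b hb => h2 b (by simp [hb]))
    rw [wB, wB, map_mul, phiB_sg (h1 a (by simp)) (fun b hb => h1 b (by simp [hb])) h2 hd]
    congr 1

lemma phiB_end {x : ℕ} {ru v : List ℕ} (hru : ∀ b ∈ ru, b < x) (hv : ∀ b ∈ v, b < x) :
    phiB ru (v ++ [x]) = phiB ru v := by
  have hop : isOpen ru (v ++ [x]) ↔ isOpen ru v := by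
    cases ru with
    | nil => cases v <;> exact Iff.rfl
    | cons c ru =>
      cases v with
      | nil =>
        constructor
        · rintro ⟨_, h⟩; have := hru c (by simp); omega
        · exact fun h => h.elim
      | cons d v => exact Iff.rfl
  have hinc : isIncV (v ++ [x]) ↔ isIncV v := by
    unfold isIncV
    rw [List.pairwise_append]
    constructor
    · exact fun h => h.1
    · refine fun h => ⟨h, by simp, ?_⟩
      intro a ha b hb
      have : b = x := by simpa using hb
      subst this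
      exact (hv a ha).le
  have hact : actB ru (v ++ [x]) ↔ actB ru v := by
    have := actB_insert (ru := ru) (l := v) (v := []) hru hv
    simpa using this
  unfold phiB
  simp only [hop, hinc, hact]

lemma wB_end {x : ℕ} : ∀ (ru v : List ℕ), (∀ b ∈ ru, b < x) → (∀ b ∈ v, b < x) →
    wB ru (v ++ [x]) = wB ru v
  | [], _, _, _ => rfl
  | c :: ru, v, h1, h2 => by
    have ih := wB_end ru (c :: v) (fun b hb => h1 b (by simp [hb]))
      (by intro b hb; rcases List.mem_cons.1 hb with rfl | hb
          · exact h1 _ (by simp)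
          · exact h2 b hb)
    rw [wB, wB, phiB_end h1 h2]
    congr 1

lemma avB_insert {x : ℕ} {ru v : List ℕ} (hru : ∀ a ∈ ru, a < x) (hv : ∀ a ∈ v, a < x) :
    avB (ru.reverseAux (x :: v)) ↔ avB (ru.reverseAux v) ∧ actB ru v := by
  simp only [List.reverseAux_eq]
  have hru' : ∀ a ∈ ru.reverse, a < x := by simpa using hru
  constructor
  · intro h
    constructor
    · intro a b c d hs
      refine h a b c d (hs.trans ?_)
      exact List.Sublist.append (List.Sublist.refl _) (List.sublist_cons_self x v)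
    · intro b a c hab hc hlt
      by_contra hcon
      have hs : List.Sublist [c, x, b, a] (ru.reverse ++ x :: v) := by
        have : [c, x, b, a] = [c] ++ [x, b, a] := rfl
        rw [this]
        apply List.Sublist.append
        · exact List.singleton_sublist.2 (by simpa using hc)
        · exact List.Sublist.cons_cons x hab
      exact h a b c x hs hlt (by omega) (hru c hc)
  · rintro ⟨h1, h2⟩ a b c d hs hab hbc hcd
    rw [List.sublist_append_iff] at hs
    obtain ⟨l1, l2, h12, hs1, hs2⟩ := hs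
    rw [List.sublist_cons_iff] at hs2
    rcases hs2 with hs2 | ⟨r, hr, hs2⟩
    · exact h1 a b c d (by rw [h12]; exact hs1.append hs2) hab hbc hcd
    · subst hr
      rcases l1 with _ | ⟨p, _ | ⟨q, _ | ⟨s, _ | ⟨t, l1⟩⟩⟩⟩
      · simp only [List.nil_append, List.cons.injEq] at h12
        obtain ⟨rfl, rfl⟩ := h12
        have := hv d (hs2.subset (by simp))
        omega
      · simp only [List.cons_append, List.nil_append, List.cons.injEq] at h12
        obtain ⟨rfl, rfl, rfl⟩ := h12
        have hc : c ∈ ru := by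
          have := hs1.subset (a := c) (by simp)
          simpa using this
        have := h2 b a c hs2 hc hab
        omega
      · simp only [List.cons_append, List.nil_append, List.cons.injEq] at h12
        obtain ⟨rfl, rfl, rfl, rfl⟩ := h12
        have := hru' c (hs1.subset (by simp))
        omega
      · simp only [List.cons_append, List.nil_append, List.cons.injEq] at h12
        obtain ⟨rfl, rfl, rfl, rfl, rfl⟩ := h12
        have := hru' b (hs1.subset (by simp))
        omega
      · simp only [List.cons_append, List.cons.injEq] at h12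
        have := congrArg List.length h12.2.2.2.2
        simp at this

lemma clsB_insert {x : ℕ} {ru v : List ℕ} (hru : ∀ a ∈ ru, a < x) (hv : ∀ a ∈ v, a < x) :
    clsB (ru.reverseAux (x :: v)) ↔
      clsB (ru.reverseAux v) ∧ (isValid ru ∧ actB ru v ∧ (x % 2 = 0 → v ≠ [])) := by
  unfold clsB
  rw [EC_insert x v hv ru hru, avB_insert hru hv]
  tauto

/-- weight of a word, zero outside the class -/
def GB (w : List ℕ) : K := if clsB w then wB w.reverse [] else 0

lemma reverse_reverseAux (ru v : List ℕ) : (ru.reverseAux v).reverse = v.reverseAux ru := by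
  simp [List.reverseAux_eq]

/-- the factor of the site just after the inserted letter -/
lemma phiB_after {x d : ℕ} {ru v : List ℕ} (hv : ∀ a ∈ d :: v, a < x) :
    phiB (x :: ru) (d :: v) =
      if x % 2 = 1 then (if isIncV (d :: v) then X - 1 else 0) else 1 := by
  have hdx : d < x := hv d (by simp)
  unfold phiB
  by_cases hx : x % 2 = 1
  · have hvx : isValid (x :: ru) := hx
    have hox : isOpen (x :: ru) (d :: v) := ⟨hx, hdx⟩
    by_cases hi : isIncV (d :: v)
    · simp [hx, hvx, hox, hi]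
    · have : ¬ actB (x :: ru) (d :: v) := not_actB (by simp) hv hi
      simp [hx, hox, hi, this]
  · have hvx : ¬ isValid (x :: ru) := hx
    have hox : ¬ isOpen (x :: ru) (d :: v) := fun h => hx h.1
    simp [hx, hvx, hox]

lemma GB_term {x : ℕ} {ru : List ℕ} {c d : ℕ} {v : List ℕ}
    (hg : Good x ((c :: ru).reverseAux (d :: v)))
    (hc : clsB ((c :: ru).reverseAux (d :: v))) :
    GB (ru.reverseAux (c :: x :: d :: v)) =
      if c % 2 = 1 ∧ actB (c :: ru) (d :: v) then
        PsB (d :: v) * ((1 + Y) *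
          ((if x % 2 = 1 then (if isIncV (d :: v) then X - 1 else 0) else 1) *
            sg (wB ru (c :: d :: v))))
      else 0 := by
  have hru := hg.ru_lt
  have hv := hg.v_lt
  have h0 : ru.reverseAux (c :: x :: d :: v) = (c :: ru).reverseAux (x :: d :: v) := rfl
  rw [h0]
  unfold GB
  have hiff : clsB ((c :: ru).reverseAux (x :: d :: v)) ↔
      (c % 2 = 1 ∧ actB (c :: ru) (d :: v)) := by
    rw [clsB_insert hru hv]
    constructor
    · rintro ⟨_, h1, h2, _⟩; exact ⟨h1, h2⟩
    · rintro ⟨h1, h2⟩; exact ⟨hc, h1, h2, by simp⟩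
  by_cases h : c % 2 = 1 ∧ actB (c :: ru) (d :: v)
  · rw [if_pos (hiff.2 h), if_pos h, reverse_reverseAux, wB_split]
    rw [RB, RB_eq (x := x) (by simp) hv, phiB_after hv, wB]
    have e1 : phiB (c :: ru) (x :: d :: v) = 1 + Y := by
      have hni : ¬ isIncV (x :: d :: v) := not_isIncV_insert (l := []) (hv d (by simp))
      have hact : actB (c :: ru) (x :: d :: v) := by
        have := actB_insert (ru := c :: ru) (l := []) (v := d :: v) hru (by simp)
        exact this.2 h.2
      have hop : ¬ isOpen (c :: ru) (x :: d :: v) := by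
        rintro ⟨_, h2⟩; have := hru c (by simp); omega
      have hval : isValid (c :: ru) := h.1
      unfold phiB
      simp [hni, hact, hop, hval]
    have e2 : wB ru (c :: x :: d :: v) = sg (wB ru (c :: d :: v)) := by
      have := wB_sg (x := x) (v := v) (hv d (by simp)) ru c []
        (by intro b hb; simp at hb; subst hb; exact hru _ (by simp))
        (fun b hb => hru b (by simp [hb]))
      simpa using this
    rw [e1, e2]
    ring
  · rw [if_neg (fun h' => h (hiff.1 h')), if_neg h]

lemma GB_term_front {x d : ℕ} {v : List ℕ}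
    (hg : Good x (d :: v)) (hc : clsB (d :: v)) :
    GB (x :: d :: v) = if x % 2 = 1 then 0 else PsB (d :: v) := by
  have hg' : Good x (([] : List ℕ).reverseAux (d :: v)) := hg
  have hv := hg'.v_lt
  unfold GB
  have hcls : clsB (x :: d :: v) := by
    have := clsB_insert (x := x) (ru := []) (v := d :: v) (by simp) hv
    refine this.2 ⟨hc, trivial, ?_, by simp⟩
    intro b a c _ hc'; simp at hc'
  have h0 : (x :: d :: v).reverse = (x :: d :: v).reverseAux [] := rfl
  rw [if_pos hcls, h0, wB_split, RB, RB_eq (x := x) (by simp) hv, phiB_after hv, wB]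
  have hni : ¬ isIncV (d :: v) := by
    intro h
    apply hg.ni
    unfold isInc
    rw [List.pairwise_reverse]
    exact h
  simp [hni]

lemma GB_term_end {x : ℕ} {c : ℕ} {ru : List ℕ} (hg : Good x ((c :: ru).reverseAux []))
    (hc : clsB ((c :: ru).reverseAux [])) :
    GB ((c :: ru).reverseAux [x]) = if x % 2 = 1 then X * wB (c :: ru) [] else 0 := by
  have hru := hg.ru_lt
  have hval := hg.last_valid
  unfold GB
  have hiff : clsB ((c :: ru).reverseAux [x]) ↔ x % 2 = 1 := by
    rw [clsB_insert hru (by simp)]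
    constructor
    · rintro ⟨_, _, _, h3⟩
      by_contra h
      exact h3 (by omega) rfl
    · intro h
      refine ⟨hc, hval, ?_, by omega⟩
      intro b a c hs
      have := hs.length_le
      simp at this
  by_cases h : x % 2 = 1
  · rw [if_pos (hiff.2 h), if_pos h, reverse_reverseAux, wB_split, RB, RB]
    have e1 : phiB (x :: c :: ru) [] = X := by
      have hvx : isValid (x :: c :: ru) := h
      have hi : isIncV ([] : List ℕ) := List.Pairwise.nil
      have hop : ¬ isOpen (x :: c :: ru) [] := fun h => h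
      unfold phiB
      simp [hvx, hi, hop]
    have e2 : wB (c :: ru) [x] = wB (c :: ru) [] := by
      have := wB_end (x := x) (c :: ru) [] hru (by simp)
      simpa using this
    rw [e1, e2]; ring
  · rw [if_neg (fun h' => h (hiff.1 h')), if_neg h]

lemma site_casesB {x : ℕ} {ru : List ℕ} {c d : ℕ} {v : List ℕ}
    (hg : Good x ((c :: ru).reverseAux (d :: v))) :
    (¬ c % 2 = 1 ∧ psi1 c (d :: v) = 1 ∧ phiB (c :: ru) (d :: v) = 1) ∨
    (c % 2 = 1 ∧ isIncV (d :: v) ∧ psi1 c (d :: v) = X - 1 ∧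
      phiB (c :: ru) (d :: v) = X - 1 ∧ ¬ isIncV (c :: d :: v)) ∨
    (c % 2 = 1 ∧ isIncV (d :: v) ∧ psi1 c (d :: v) = X ∧ phiB (c :: ru) (d :: v) = X) ∨
    (c % 2 = 1 ∧ ¬ isIncV (d :: v) ∧ actB (c :: ru) (d :: v) ∧ psi1 c (d :: v) = 0 ∧
      phiB (c :: ru) (d :: v) = Y) ∨
    (c % 2 = 1 ∧ ¬ isIncV (d :: v) ∧ actB (c :: ru) (d :: v) ∧ psi1 c (d :: v) = 1 ∧
      phiB (c :: ru) (d :: v) = 1 + Y) ∨
    (c % 2 = 1 ∧ ¬ isIncV (d :: v) ∧ ¬ actB (c :: ru) (d :: v) ∧ psi1 c (d :: v) = 0 ∧
      phiB (c :: ru) (d :: v) = 0) ∨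
    (c % 2 = 1 ∧ ¬ isIncV (d :: v) ∧ ¬ actB (c :: ru) (d :: v) ∧ psi1 c (d :: v) = 1 ∧
      phiB (c :: ru) (d :: v) = 1) := by
  have hval : isValid (c :: ru) ↔ c % 2 = 1 := Iff.rfl
  have hoc : isOpen (c :: ru) (d :: v) ↔ (c % 2 = 1 ∧ d < c) := Iff.rfl
  have hoc' : isOpen [c] (d :: v) ↔ (c % 2 = 1 ∧ d < c) := Iff.rfl
  unfold psi1 phiB
  simp only [hval, hoc, hoc']
  by_cases hodd : c % 2 = 1
  · by_cases hinc : isIncV (d :: v)
    · by_cases hdc : d < c
      · right; left
        refine ⟨hodd, hinc, by simp [hodd, hinc, hdc], by simp [hodd, hinc, hdc], ?_⟩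
        intro h
        have := (List.pairwise_cons.1 h).1 d (by simp)
        omega
      · right; right; left
        exact ⟨hodd, hinc, by simp [hodd, hinc, hdc], by simp [hodd, hinc, hdc]⟩
    · by_cases hact : actB (c :: ru) (d :: v)
      · by_cases hdc : d < c
        · right; right; right; left
          exact ⟨hodd, hinc, hact, by simp [hodd, hinc, hdc], by simp [hodd, hinc, hdc, hact]⟩
        · right; right; right; right; left
          exact ⟨hodd, hinc, hact, by simp [hinc, hdc], by simp [hodd, hinc, hdc, hact]⟩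
      · by_cases hdc : d < c
        · right; right; right; right; right; left
          exact ⟨hodd, hinc, hact, by simp [hodd, hinc, hdc], by simp [hodd, hinc, hdc, hact]⟩
        · right; right; right; right; right; right
          exact ⟨hodd, hinc, hact, by simp [hinc, hdc], by simp [hinc, hdc, hact]⟩
  · left
    exact ⟨hodd, by simp [hodd], by simp [hodd]⟩

lemma mainB_odd {x : ℕ} (hx : x % 2 = 1) : ∀ (ru : List ℕ) (d : ℕ) (v : List ℕ),
    Good x (ru.reverseAux (d :: v)) → clsB (ru.reverseAux (d :: v)) →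
    zsumL GB x ru (d :: v) = PsB (d :: v) * UU (wB ru (d :: v))
  | [], d, v, hg, hc => by
    have h1 : UU (1 : K) = 0 := by have := UU_C 1; simpa using this
    rw [zsumL, GB_term_front hg hc, if_pos hx, wB, h1, mul_zero]
  | c :: ru, d, v, hg, hc => by
    have ih := mainB_odd hx ru c (d :: v) hg hc
    rw [zsumL, ih, GB_term hg hc, if_pos hx]
    have e0 : PsB (c :: d :: v) = psi1 c (d :: v) * PsB (d :: v) := rfl
    have e1 : wB (c :: ru) (d :: v) = phiB (c :: ru) (d :: v) * wB ru (c :: d :: v) := rfl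
    rw [e0, e1]
    rcases site_casesB hg with ⟨h1, h2, h3⟩ | ⟨h1, h2, h3, h4, h5⟩ | ⟨h1, h2, h3, h4⟩ |
      ⟨h1, h2, h3, h4, h5⟩ | ⟨h1, h2, h3, h4, h5⟩ | ⟨h1, h2, h3, h4, h5⟩ | ⟨h1, h2, h3, h4, h5⟩
    · rw [h2, h3, if_neg (fun h => h1 h.1)]; simp
    · obtain ⟨q, hq⟩ := wB_const ru (c :: d :: v) h5
      rw [if_pos ⟨h1, actB_of_isIncV h2⟩, if_pos h2, h3, h4, hq, UU_C, UU_X1, sg_C]
      ring
    · rw [if_pos ⟨h1, actB_of_isIncV h2⟩, if_pos h2, h3, h4, UU_X]
      ring
    · obtain ⟨q, hq⟩ := wB_const ru (c :: d :: v) (not_isIncV_cons h2)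
      have e : UU (Y * C q) = 0 := by rw [Y, ← C_mul, UU_C]
      rw [if_neg h2, h4, h5, hq, e]
      simp
    · obtain ⟨q, hq⟩ := wB_const ru (c :: d :: v) (not_isIncV_cons h2)
      have e : UU ((1 + Y) * C q) = 0 := by
        have : ((1 + Y) * C q : K) = C ((1 + yy) * q) := by simp [Y, C_mul, C_add]
        rw [this, UU_C]
      rw [if_neg h2, h4, h5, hq, e, UU_C]
      simp
    · have e : UU (0 : K) = 0 := by have := UU_C 0; simpa using this
      rw [if_neg (fun h => h3 h.2), h4, h5]; simp [e]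
    · rw [if_neg (fun h => h3 h.2), h4, h5]; simp

lemma mainB_even {x : ℕ} (hx : x % 2 = 0) : ∀ (ru : List ℕ) (d : ℕ) (v : List ℕ),
    Good x (ru.reverseAux (d :: v)) → clsB (ru.reverseAux (d :: v)) →
    zsumL GB x ru (d :: v) = PsB (d :: v) * VV (wB ru (d :: v))
  | [], d, v, hg, hc => by
    have h1 : VV (1 : K) = 1 := by have := VV_C 1; simpa using this
    rw [zsumL, GB_term_front hg hc, if_neg (by omega), wB, h1, mul_one]
  | c :: ru, d, v, hg, hc => by
    have ih := mainB_even hx ru c (d :: v) hg hc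
    have hx' : ¬ x % 2 = 1 := by omega
    rw [zsumL, ih, GB_term hg hc, if_neg hx']
    have e0 : PsB (c :: d :: v) = psi1 c (d :: v) * PsB (d :: v) := rfl
    have e1 : wB (c :: ru) (d :: v) = phiB (c :: ru) (d :: v) * wB ru (c :: d :: v) := rfl
    rw [e0, e1]
    rcases site_casesB hg with ⟨h1, h2, h3⟩ | ⟨h1, h2, h3, h4, h5⟩ | ⟨h1, h2, h3, h4⟩ |
      ⟨h1, h2, h3, h4, h5⟩ | ⟨h1, h2, h3, h4, h5⟩ | ⟨h1, h2, h3, h4, h5⟩ | ⟨h1, h2, h3, h4, h5⟩
    · rw [h2, h3, if_neg (fun h => h1 h.1)]; simp
    · obtain ⟨q, hq⟩ := wB_const ru (c :: d :: v) h5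
      rw [if_pos ⟨h1, actB_of_isIncV h2⟩, h3, h4, hq, VV_X1, sg_C]
      ring
    · rw [if_pos ⟨h1, actB_of_isIncV h2⟩, h3, h4, VV_X]
      ring
    · obtain ⟨q, hq⟩ := wB_const ru (c :: d :: v) (not_isIncV_cons h2)
      rw [if_pos ⟨h1, h3⟩, h4, h5, hq, VV_Y, sg_C]
      ring
    · obtain ⟨q, hq⟩ := wB_const ru (c :: d :: v) (not_isIncV_cons h2)
      rw [if_pos ⟨h1, h3⟩, h4, h5, hq, VV_Y1, sg_C]
      ring
    · have e : VV (0 : K) = 0 := by have := VV_C 0; simpa using this
      rw [if_neg (fun h => h3 h.2), h4, h5]; simp [e]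
    · rw [if_neg (fun h => h3 h.2), h4, h5]; simp

end

end Pool.Agent.Lib.MP_911b3a_co
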