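import Pool.Agent.Lib.MP_911b3a_co.ClassB

/-!
Counting: total weights of both classes agree; link with permutations of `Fin N`.
-/

open Polynomial

namespace Pool.Agent.Lib.MP_911b3a_co

open Classical

noncomputable section

/-- the list `[m, m-1, …, 1]` -/
def desc : ℕ → List ℕ
  | 0 => []
  | m + 1 => (m + 1) :: desc m

/-- all words on the letters `1, …, m` -/
def words (m : ℕ) : List (List ℕ) := (desc m).permutations'

lemma mem_desc {m a : ℕ} : a ∈ desc m ↔ 1 ≤ a ∧ a ≤ m := by
  induction m with
  | zero => simp [desc]; omega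
  | succ m ih => simp only [desc, List.mem_cons, ih]; omega

lemma nodup_desc (m : ℕ) : (desc m).Nodup := by
  induction m with
  | zero => simp [desc]
  | succ m ih =>
    simp only [desc, List.nodup_cons]
    refine ⟨?_, ih⟩
    rw [mem_desc]; omega

lemma length_desc (m : ℕ) : (desc m).length = m := by
  induction m with
  | zero => rfl
  | succ m ih => simp [desc, ih]

lemma mem_words {m : ℕ} {w : List ℕ} : w ∈ words m ↔ List.Perm w (desc m) := by
  unfold words; exact List.mem_permutations'

lemma nodup_words (m : ℕ) : (words m).Nodup := by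
  unfold words
  rw [← (List.permutations_perm_permutations' _).nodup_iff]
  exact List.nodup_permutations _ (nodup_desc m)

lemma words_succ (m : ℕ) :
    words (m + 1) = (words m).flatMap (List.permutations'Aux (m + 1)) := rfl

lemma EC_even : ∀ {w : List ℕ} {a : ℕ}, EC w → a ∈ w → a % 2 = 0 →
    ∃ c, List.Sublist [a, c] w ∧ c < a
  | [], _, _, h, _ => by simp at h
  | b :: w, a, hE, hmem, hev => by
    rcases List.mem_cons.1 hmem with rfl | hmem
    · obtain ⟨c, hc, hlt⟩ := hE.1 hev
      refine ⟨c, ?_, hlt⟩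
      cases w with
      | nil => simp at hc
      | cons d w =>
        have : d = c := by simpa using hc
        subst this
        exact List.Sublist.cons_cons _ (List.Sublist.cons_cons _ (List.nil_sublist _))
    · obtain ⟨c, hc, hlt⟩ := EC_even hE.2 hmem hev
      exact ⟨c, List.Sublist.cons b hc, hlt⟩

lemma good_of_mem {m : ℕ} (hm : 2 ≤ m) {w : List ℕ} (hw : w ∈ words m) (hE : EC w) :
    Good (m + 1) w := by
  rw [mem_words] at hw
  refine ⟨hw.nodup_iff.2 (nodup_desc m), hE, ?_, ?_⟩
  · intro a ha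
    have := mem_desc.1 (hw.mem_iff.1 ha)
    omega
  · intro h
    have h2 : 2 ∈ w := hw.mem_iff.2 (mem_desc.2 (by omega))
    obtain ⟨c, hc, hlt⟩ := EC_even hE h2 (by norm_num)
    have := isInc_sub h (a := c) (b := 2) (by simpa using hc.reverse)
    omega

lemma zsumA_zero {x : ℕ} : ∀ (v ru : List ℕ), (∀ a ∈ ru, a < x) → (∀ a ∈ v, a < x) →
    ¬ clsA (ru.reverseAux v) → zsum GA x ru v = 0
  | [], ru, h1, h2, h => by
    rw [zsum, GA, if_neg]
    rw [clsA_insert h1 h2]
    exact fun h' => h h'.1
  | c :: v, ru, h1, h2, h => by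
    rw [zsum, zsumA_zero v (c :: ru) _ _ h, GA, if_neg, zero_add]
    · rw [clsA_insert h1 h2]
      exact fun h' => h h'.1
    · intro a ha
      rcases List.mem_cons.1 ha with rfl | ha
      · exact h2 _ (by simp)
      · exact h1 a ha
    · exact fun a ha => h2 a (by simp [ha])

lemma zsumB_zero {x : ℕ} : ∀ (v ru : List ℕ), (∀ a ∈ ru, a < x) → (∀ a ∈ v, a < x) →
    ¬ clsB (ru.reverseAux v) → zsum GB x ru v = 0
  | [], ru, h1, h2, h => by
    rw [zsum, GB, if_neg]
    rw [clsB_insert h1 h2]
    exact fun h' => h h'.1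
  | c :: v, ru, h1, h2, h => by
    rw [zsum, zsumB_zero v (c :: ru) _ _ h, GB, if_neg, zero_add]
    · rw [clsB_insert h1 h2]
      exact fun h' => h h'.1
    · intro a ha
      rcases List.mem_cons.1 ha with rfl | ha
      · exact h2 _ (by simp)
      · exact h1 a ha
    · exact fun a ha => h2 a (by simp [ha])

/-- the operator for inserting the letter `x` -/
def OP (x : ℕ) : K →+ K := if x % 2 = 1 then OO else EE

lemma stepA {m : ℕ} (hm : 2 ≤ m) {w : List ℕ} (hw : w ∈ words m) :
    ((List.permutations'Aux (m + 1) w).map GA).sum = OP (m + 1) (GA w) := by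
  have h1 := zsum_eq GA (m + 1) w []
  have h2 : ((List.permutations'Aux (m + 1) w).map GA).sum = zsum GA (m + 1) [] w := by
    rw [← h1]; rfl
  rw [h2]
  by_cases hc : clsA w
  · have hg := good_of_mem hm hw hc.1
    unfold OP
    by_cases hx : (m + 1) % 2 = 1
    · rw [if_pos hx, mainA_odd hx w [] hg hc, GA, if_pos hc, PhA, one_mul]
    · rw [if_neg hx, mainA_even (by omega) w [] hg hc, GA, if_pos hc, PhA, one_mul]
  · rw [GA, if_neg hc, map_zero]
    refine zsumA_zero w [] (by simp) ?_ hc
    intro a ha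
    have := mem_desc.1 ((mem_words.1 hw).mem_iff.1 ha)
    omega

lemma stepB {m : ℕ} (hm : 2 ≤ m) {w : List ℕ} (hw : w ∈ words m) :
    ((List.permutations'Aux (m + 1) w).map GB).sum = OP (m + 1) (GB w) := by
  have h1 := zsum_eq GB (m + 1) w []
  have h2 : ((List.permutations'Aux (m + 1) w).map GB).sum = zsum GB (m + 1) [] w := by
    rw [← h1]; rfl
  rw [h2]
  by_cases hc : clsB w
  · have hg := good_of_mem hm hw hc.1
    have hlen : w.length = m := by rw [(mem_words.1 hw).length_eq, length_desc]
    -- pass to the reversed zipper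
    have hne : w.reverse ≠ [] := by
      intro h
      have : w.length = 0 := by
        have := congrArg List.length h
        simpa using this
      omega
    obtain ⟨c, ru, hru⟩ := List.exists_cons_of_ne_nil hne
    have hw' : (c :: ru).reverseAux [] = w := by
      rw [← hru, List.reverseAux_eq]; simp
    have h3 := zsum_total GB (m + 1) (c :: ru) []
    rw [hw'] at h3
    have h4 : zsumR GB (m + 1) (c :: ru) [] = 0 := rfl
    rw [h4, add_zero] at h3
    rw [← h3]
    have hg' : Good (m + 1) ((c :: ru).reverseAux []) := by rw [hw']; exact hg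
    have hc' : clsB ((c :: ru).reverseAux []) := by rw [hw']; exact hc
    have hodd : c % 2 = 1 := hg'.last_valid
    have e0 : zsumL GB (m + 1) (c :: ru) [] =
        GB ((c :: ru).reverseAux [m + 1]) + zsumL GB (m + 1) ru [c] := rfl
    rw [e0, GB_term_end hg' hc']
    have hGB : GB w = X * wB ru [c] := by
      rw [GB, if_pos hc, hru, wB]
      have : phiB (c :: ru) [] = X := by
        have hvx : isValid (c :: ru) := hodd
        have hi : isIncV ([] : List ℕ) := List.Pairwise.nil
        have hop : ¬ isOpen (c :: ru) [] := fun h => h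
        unfold phiB
        simp [hvx, hi, hop]
      rw [this]
    have hwB : wB (c :: ru) [] = X * wB ru [c] := by
      rw [← hGB, GB, if_pos hc, hru]
    have hPs : PsB [c] = X := by
      have hi : isIncV ([] : List ℕ) := List.Pairwise.nil
      have hop : ¬ isOpen [c] [] := fun h => h
      simp [PsB, psi1, hodd, hi, hop]
    unfold OP
    by_cases hx : (m + 1) % 2 = 1
    · rw [if_pos hx, if_pos hx, mainB_odd hx ru c [] hg' hc', hPs, hGB, OO_X, hwB, UU]
      ring
    · rw [if_neg hx, if_neg hx, mainB_even (by omega) ru c [] hg' hc', hPs, hGB, EE_X, VV]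
      ring
  · rw [GB, if_neg hc, map_zero]
    refine zsumB_zero w [] (by simp) ?_ hc
    intro a ha
    have := mem_desc.1 ((mem_words.1 hw).mem_iff.1 ha)
    omega

def TA (m : ℕ) : K := ((words m).map GA).sum
def TB (m : ℕ) : K := ((words m).map GB).sum

lemma sum_flatMap' {α : Type*} (f : α → List K) : ∀ (l : List α),
    (l.flatMap f).sum = (l.map (fun a => (f a).sum)).sum
  | [] => by simp
  | a :: l => by
    rw [List.flatMap_cons, List.sum_append, sum_flatMap' f l, List.map_cons, List.sum_cons]

lemma total_step {G : List ℕ → K} {m : ℕ}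
    (h : ∀ w ∈ words m, ((List.permutations'Aux (m + 1) w).map G).sum = OP (m + 1) (G w)) :
    ((words (m + 1)).map G).sum = OP (m + 1) ((words m).map G).sum := by
  rw [words_succ, List.map_flatMap, sum_flatMap', map_list_sum, List.map_map]
  congr 1
  apply List.map_congr_left
  intro w hw
  exact h w hw

lemma TA_succ {m : ℕ} (hm : 2 ≤ m) : TA (m + 1) = OP (m + 1) (TA m) :=
  total_step (fun _ hw => stepA hm hw)

lemma TB_succ {m : ℕ} (hm : 2 ≤ m) : TB (m + 1) = OP (m + 1) (TB m) :=
  total_step (fun _ hw => stepB hm hw)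

lemma words_two : words 2 = [[2, 1], [1, 2]] := rfl

lemma TA_two : TA 2 = X := by
  have h1 : clsA [2, 1] := by
    refine ⟨⟨fun _ => ⟨1, rfl, by norm_num⟩, ⟨fun h => by norm_num at h, trivial⟩⟩, ?_⟩
    intro a b c d hs
    have := hs.length_le
    simp at this
  have h2 : ¬ clsA [1, 2] := by
    rintro ⟨⟨_, h, _⟩, _⟩
    obtain ⟨c, hc, _⟩ := h (by norm_num)
    simp at hc
  have e1 : phiA [] [2, 1] = X := by
    have a1 : isValid [] := trivial
    have a2 : isInc [] := List.Pairwise.nil
    have a3 : ¬ isOpen [] [2, 1] := fun h => h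
    unfold phiA; simp [a1, a2, a3]
  have e2 : phiA [2] [1] = 1 := by
    have a1 : ¬ isValid [2] := by intro h; have : 2 % 2 = 1 := h; norm_num at this
    have a3 : ¬ isOpen [2] [1] := by intro h; have : 2 % 2 = 1 := h.1; norm_num at this
    unfold phiA; simp [a1, a3]
  simp [TA, words_two, GA, h1, h2, wA, e1, e2]

lemma TB_two : TB 2 = X := by
  have h1 : clsB [2, 1] := by
    refine ⟨⟨fun _ => ⟨1, rfl, by norm_num⟩, ⟨fun h => by norm_num at h, trivial⟩⟩, ?_⟩
    intro a b c d hs
    have := hs.length_le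
    simp at this
  have h2 : ¬ clsB [1, 2] := by
    rintro ⟨⟨_, h, _⟩, _⟩
    obtain ⟨c, hc, _⟩ := h (by norm_num)
    simp at hc
  have e1 : phiB [1, 2] [] = X := by
    have a1 : isValid [1, 2] := by show 1 % 2 = 1; norm_num
    have a2 : isIncV [] := List.Pairwise.nil
    have a3 : ¬ isOpen [1, 2] [] := fun h => h
    unfold phiB; simp [a1, a2, a3]
  have e2 : phiB [2] [1] = 1 := by
    have a1 : ¬ isValid [2] := by intro h; have : 2 % 2 = 1 := h; norm_num at this
    have a3 : ¬ isOpen [2] [1] := by intro h; have : 2 % 2 = 1 := h.1; norm_num at this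
    unfold phiB; simp [a1, a3]
  simp [TB, words_two, GB, h1, h2, wB, e1, e2]

theorem TA_eq_TB : ∀ m, TA (m + 2) = TB (m + 2)
  | 0 => by rw [TA_two, TB_two]
  | m + 1 => by
    have h1 : TA (m + 1 + 2) = TA ((m + 2) + 1) := rfl
    have h2 : TB (m + 1 + 2) = TB ((m + 2) + 1) := rfl
    rw [h1, h2, TA_succ (by omega), TB_succ (by omega), TA_eq_TB m]

/-! ### evaluation -/

lemma ev_phiA (ru v : List ℕ) : ev (phiA ru v) = if isOpen ru v then 0 else 1 := by
  unfold phiA
  split_ifs <;> simp [ev_X, ev_Y]

lemma ev_phiB (ru v : List ℕ) : ev (phiB ru v) = if isOpen ru v then 0 else 1 := by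
  unfold phiB
  split_ifs <;> simp [ev_X, ev_Y]

lemma ev_wA : ∀ (v ru : List ℕ), ev (wA ru v) = if noOpen ru v then 1 else 0
  | [], ru => by simp [wA, noOpen]
  | c :: v, ru => by
    rw [wA, map_mul, ev_phiA, ev_wA v (c :: ru), noOpen]
    by_cases h1 : isOpen ru (c :: v) <;> by_cases h2 : noOpen (c :: ru) v <;> simp [h1, h2]

/-- no open site strictly to the right -/
def noOpenR : List ℕ → List ℕ → Prop
  | _, [] => True
  | ru, c :: v => ¬ isOpen (c :: ru) v ∧ noOpenR (c :: ru) v

/-- no open site weakly to the left -/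
def noOpenL : List ℕ → List ℕ → Prop
  | [], _ => True
  | c :: ru, v => ¬ isOpen (c :: ru) v ∧ noOpenL ru (c :: v)

lemma ev_wB : ∀ (ru v : List ℕ), ev (wB ru v) = if noOpenL ru v then 1 else 0
  | [], v => by simp [wB, noOpenL]
  | c :: ru, v => by
    rw [wB, map_mul, ev_phiB, ev_wB ru (c :: v), noOpenL]
    by_cases h1 : isOpen (c :: ru) v <;> by_cases h2 : noOpenL ru (c :: v) <;> simp [h1, h2]

lemma noOpen_iff : ∀ (v ru : List ℕ), noOpen ru v ↔ ¬ isOpen ru v ∧ noOpenR ru v
  | [], ru => by
    have : ¬ isOpen ru [] := by cases ru <;> exact fun h => h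
    simp [noOpen, noOpenR, this]
  | c :: v, ru => by rw [noOpen, noOpenR, noOpen_iff v (c :: ru)]

lemma noOpenL_split : ∀ (v ru : List ℕ), noOpenL (v.reverseAux ru) [] ↔
    noOpenL ru v ∧ noOpenR ru v
  | [], ru => by simp [noOpenR, List.reverseAux]
  | c :: v, ru => by
    have h0 : (c :: v).reverseAux ru = v.reverseAux (c :: ru) := rfl
    rw [h0, noOpenL_split v (c :: ru), noOpenL, noOpenR]
    tauto

lemma noOpenL_reverse (w : List ℕ) : noOpenL w.reverse [] ↔ noOpen [] w := by
  have h := noOpenL_split w []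
  have h0 : w.reverseAux [] = w.reverse := by rw [List.reverseAux_eq]; simp
  rw [h0] at h
  rw [h, noOpen_iff]
  have : ¬ isOpen [] w := fun h => h
  simp [noOpenL, this]

def QA (w : List ℕ) : Prop := clsA w ∧ noOpen [] w
def QB (w : List ℕ) : Prop := clsB w ∧ noOpen [] w

lemma ev_GA (w : List ℕ) : ev (GA w) = if QA w then 1 else 0 := by
  unfold GA
  by_cases h : clsA w
  · rw [if_pos h, ev_wA]; simp [h, QA]
  · rw [if_neg h]; simp [h, QA]

lemma ev_GB (w : List ℕ) : ev (GB w) = if QB w then 1 else 0 := by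
  unfold GB
  by_cases h : clsB w
  · rw [if_pos h, ev_wB]; simp [h, noOpenL_reverse, QB]
  · rw [if_neg h]; simp [h, QB]

theorem count_eq (m : ℕ) :
    ((words (m + 2)).map (fun w => if QA w then (1 : ℤ) else 0)).sum =
    ((words (m + 2)).map (fun w => if QB w then (1 : ℤ) else 0)).sum := by
  have h := congrArg ev (TA_eq_TB m)
  unfold TA TB at h
  rw [map_list_sum, map_list_sum, List.map_map, List.map_map] at h
  have e1 : (ev ∘ GA) = (fun w => if QA w then (1 : ℤ) else 0) := by
    funext w; exact ev_GA w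
  have e2 : (ev ∘ GB) = (fun w => if QB w then (1 : ℤ) else 0) := by
    funext w; exact ev_GB w
  rw [← e1, ← e2]
  exact h

end

end Pool.Agent.Lib.MP_911b3a_co
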