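import Pool.Agent.Lib.MP_911b3a_co.Count

/-!
Link between words and permutations of `Fin N`.
-/

namespace Pool.Agent.Lib.MP_911b3a_co

open Classical

noncomputable section

/-- one-line word of a permutation, letters `1, …, N` -/
def word {N : ℕ} (π : Equiv.Perm (Fin N)) : List ℕ := List.ofFn (fun i => (π i).val + 1)

lemma length_word {N : ℕ} (π : Equiv.Perm (Fin N)) : (word π).length = N := by simp [word]

lemma getElem_word {N : ℕ} (π : Equiv.Perm (Fin N)) (i : ℕ) (h : i < (word π).length) :
    (word π)[i] = (π ⟨i, by simpa [length_word] using h⟩).val + 1 := by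
  simp [word]

lemma word_injective {N : ℕ} : Function.Injective (word : Equiv.Perm (Fin N) → List ℕ) := by
  intro π σ h
  have := List.ofFn_injective h
  ext i
  have h2 : (π i).val + 1 = (σ i).val + 1 := congrFun this i
  omega

lemma mem_word {N : ℕ} (π : Equiv.Perm (Fin N)) (a : ℕ) : a ∈ word π ↔ 1 ≤ a ∧ a ≤ N := by
  unfold word
  rw [List.mem_ofFn]
  constructor
  · rintro ⟨i, rfl⟩
    have := (π i).isLt
    omega
  · rintro ⟨h1, h2⟩
    refine ⟨π.symm ⟨a - 1, by omega⟩, ?_⟩
    simp; omega

lemma nodup_word {N : ℕ} (π : Equiv.Perm (Fin N)) : (word π).Nodup := by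
  unfold word
  rw [List.nodup_ofFn]
  intro i j h
  have h' : (π i).val + 1 = (π j).val + 1 := h
  apply π.injective
  apply Fin.ext
  omega

lemma word_mem {N : ℕ} (π : Equiv.Perm (Fin N)) : word π ∈ words N := by
  rw [mem_words, List.perm_ext_iff_of_nodup (nodup_word π) (nodup_desc N)]
  intro a
  rw [mem_word, mem_desc]

lemma exists_word {N : ℕ} {w : List ℕ} (hw : w ∈ words N) :
    ∃ π : Equiv.Perm (Fin N), word π = w := by
  rw [mem_words] at hw
  have hlen : w.length = N := by rw [hw.length_eq, length_desc]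
  have hnd : w.Nodup := hw.nodup_iff.2 (nodup_desc N)
  have hmem : ∀ a, a ∈ w → 1 ≤ a ∧ a ≤ N := fun a ha => mem_desc.1 (hw.mem_iff.1 ha)
  have hb : ∀ i : Fin N, 1 ≤ w[i.val]'(by rw [hlen]; exact i.isLt) ∧
      w[i.val]'(by rw [hlen]; exact i.isLt) ≤ N := fun i => hmem _ (List.getElem_mem _)
  let f : Fin N → Fin N := fun i =>
    ⟨w[i.val]'(by rw [hlen]; exact i.isLt) - 1, by have := hb i; omega⟩
  have hf : Function.Injective f := by
    intro i j hij
    have h1 := congrArg Fin.val hij
    simp only [f] at h1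
    have h2 := hb i
    have h3 := hb j
    have h4 : w[i.val]'(by rw [hlen]; exact i.isLt) = w[j.val]'(by rw [hlen]; exact j.isLt) := by
      omega
    rw [hnd.getElem_inj_iff] at h4
    exact Fin.ext h4
  refine ⟨Equiv.ofBijective f (Finite.injective_iff_bijective.1 hf), ?_⟩
  apply List.ext_getElem
  · rw [length_word, hlen]
  · intro i h1 h2
    rw [getElem_word]
    have h3 := hb ⟨i, by rw [hlen] at h2; exact h2⟩
    simp only [Equiv.ofBijective_apply, f]
    simp only at h3
    omega

theorem ncard_eq {N : ℕ} (Q : List ℕ → Prop) :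
    (({π : Equiv.Perm (Fin N) | Q (word π)}.ncard : ℕ) : ℤ) =
      ((words N).map (fun w => if Q w then (1 : ℤ) else 0)).sum := by
  have h1 : (word '' {π : Equiv.Perm (Fin N) | Q (word π)}) =
      (((words N).toFinset.filter Q : Finset (List ℕ)) : Set (List ℕ)) := by
    ext w
    simp only [Set.mem_image, Set.mem_ofPred_eq, Finset.coe_filter, List.mem_toFinset]
    constructor
    · rintro ⟨π, hq, rfl⟩
      exact ⟨word_mem π, hq⟩
    · rintro ⟨hw, hq⟩
      obtain ⟨π, rfl⟩ := exists_word hw
      exact ⟨π, hq, rfl⟩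
  rw [← Set.ncard_image_of_injective _ word_injective, h1, Set.ncard_coe_finset]
  rw [Finset.card_filter, ← List.sum_toFinset _ (nodup_words N)]
  push_cast
  rfl

/-! ### index form of the local conditions -/

lemma EC_index : ∀ (w : List ℕ), EC w ↔
    ∀ i (h : i < w.length), w[i] % 2 = 0 → ∃ h' : i + 1 < w.length, w[i + 1] < w[i]
  | [] => by simp [EC]
  | a :: w => by
    rw [EC, EC_index w]
    constructor
    · rintro ⟨h1, h2⟩ i hi hev
      cases i with
      | zero =>
        obtain ⟨c, hc, hlt⟩ := h1 hev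
        cases w with
        | nil => simp at hc
        | cons d w =>
          have : d = c := by simpa using hc
          subst this
          exact ⟨by simp, hlt⟩
      | succ i =>
        have hi' : i < w.length := by simpa using hi
        obtain ⟨h', hlt⟩ := h2 i hi' (by simpa using hev)
        exact ⟨by simpa using h', by simpa using hlt⟩
    · intro h
      constructor
      · intro hev
        obtain ⟨h', hlt⟩ := h 0 (by simp) (by simpa using hev)
        cases w with
        | nil => simp at h'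
        | cons d w => exact ⟨d, rfl, by simpa using hlt⟩
      · intro i hi hev
        obtain ⟨h', hlt⟩ := h (i + 1) (by simpa using hi) (by simpa using hev)
        exact ⟨by simpa using h', by simpa using hlt⟩

lemma noOpen_index' : ∀ (w : List ℕ) (a : ℕ) (ru : List ℕ), noOpen (a :: ru) w ↔
    ∀ i (h : i + 1 < (a :: w).length), (a :: w)[i] % 2 = 1 → ¬ (a :: w)[i + 1] < (a :: w)[i]
  | [], a, ru => by simp [noOpen]
  | b :: w, a, ru => by
    rw [noOpen, noOpen_index' w b (a :: ru)]
    constructor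
    · rintro ⟨h1, h2⟩ i hi hodd
      cases i with
      | zero =>
        intro hlt
        exact h1 ⟨hodd, hlt⟩
      | succ i =>
        have := h2 i (by simpa using hi) (by simpa using hodd)
        simpa using this
    · intro h
      constructor
      · intro hop
        exact h 0 (by simp) hop.1 hop.2
      · intro i hi hodd
        have := h (i + 1) (by simpa using hi) (by simpa using hodd)
        simpa using this

lemma noOpen_index (w : List ℕ) : noOpen [] w ↔
    ∀ i (h : i + 1 < w.length), w[i] % 2 = 1 → ¬ w[i + 1] < w[i] := by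
  cases w with
  | nil => simp [noOpen]
  | cons a w =>
    rw [noOpen, noOpen_index' w a []]
    have : ¬ isOpen [] (a :: w) := fun h => h
    simp [this]

lemma dumont_iff {N : ℕ} (π : Equiv.Perm (Fin N)) :
    (∀ i : Fin N,
      (Even ((π i).val + 1) → ∃ j : Fin N, j.val = i.val + 1 ∧ π j < π i) ∧
      (Odd ((π i).val + 1) →
        (i.val + 1 = N ∨ ∃ j : Fin N, j.val = i.val + 1 ∧ π i < π j))) ↔
    (EC (word π) ∧ noOpen [] (word π)) := by
  rw [EC_index, noOpen_index]
  constructor
  · intro h
    constructor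
    · intro i hi hev
      have hi' : i < N := by rw [length_word] at hi; exact hi
      rw [getElem_word π i hi] at hev
      obtain ⟨j, hj, hlt⟩ := (h ⟨i, hi'⟩).1 (Nat.even_iff.2 hev)
      have hj' : j.val = i + 1 := hj
      refine ⟨by rw [length_word]; have := j.isLt; omega, ?_⟩
      rw [getElem_word, getElem_word]
      have : (⟨i + 1, by have := j.isLt; omega⟩ : Fin N) = j := Fin.ext hj'.symm
      rw [this]
      have := Fin.lt_def.1 hlt
      omega
    · intro i hi hodd
      have hi0 : i < (word π).length := by omega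
      have hi' : i < N := by rw [length_word] at hi0; exact hi0
      rw [getElem_word π i hi0] at hodd
      rcases (h ⟨i, hi'⟩).2 (Nat.odd_iff.2 hodd) with h1 | ⟨j, hj, hlt⟩
      · rw [length_word] at hi
        simp only at h1
        omega
      · have hj' : j.val = i + 1 := hj
        rw [getElem_word, getElem_word]
        have : (⟨i + 1, by have := j.isLt; omega⟩ : Fin N) = j := Fin.ext hj'.symm
        rw [this]
        have := Fin.lt_def.1 hlt
        omega
  · rintro ⟨h1, h2⟩ i
    have hi : i.val < (word π).length := by rw [length_word]; exact i.isLt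
    constructor
    · intro hev
      obtain ⟨h', hlt⟩ := h1 i.val hi (by rw [getElem_word]; exact Nat.even_iff.1 hev)
      rw [getElem_word, getElem_word] at hlt
      simp only [Fin.eta] at hlt
      refine ⟨⟨i.val + 1, by rw [length_word] at h'; exact h'⟩, rfl, ?_⟩
      rw [Fin.lt_def]
      omega
    · intro hodd
      by_cases hN : i.val + 1 = N
      · left; exact hN
      · right
        have h' : i.val + 1 < (word π).length := by
          rw [length_word]; have := i.isLt; omega
        have := h2 i.val h' (by rw [getElem_word]; exact Nat.odd_iff.1 hodd)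
        rw [getElem_word, getElem_word] at this
        simp only [Fin.eta] at this
        refine ⟨⟨i.val + 1, by rw [length_word] at h'; exact h'⟩, rfl, ?_⟩
        rw [Fin.lt_def]
        have hne : (π ⟨i.val + 1, by rw [length_word] at h'; exact h'⟩) ≠ π i := by
          intro he
          have := π.injective he
          have := congrArg Fin.val this
          simp at this
        have hne' : (π ⟨i.val + 1, by rw [length_word] at h'; exact h'⟩).val ≠ (π i).val :=
          fun he => hne (Fin.ext he)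
        omega

/-! ### patterns -/

lemma sublist4 {N : ℕ} (π : Equiv.Perm (Fin N)) (p q r s : ℕ) :
    List.Sublist [p, q, r, s] (word π) ↔
      ∃ i j k l : Fin N, i < j ∧ j < k ∧ k < l ∧ (π i).val + 1 = p ∧ (π j).val + 1 = q ∧
        (π k).val + 1 = r ∧ (π l).val + 1 = s := by
  rw [List.sublist_iff_exists_fin_orderEmbedding_get_eq]
  have hlen := length_word π
  constructor
  · rintro ⟨f, hf⟩
    have h0 := hf ⟨0, by simp⟩
    have h1 := hf ⟨1, by simp⟩
    have h2 := hf ⟨2, by simp⟩
    have h3 := hf ⟨3, by simp⟩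
    simp only [List.get_eq_getElem, getElem_word] at h0 h1 h2 h3
    refine ⟨⟨(f ⟨0, by simp⟩).val, lt_of_lt_of_eq (f _).isLt hlen⟩,
      ⟨(f ⟨1, by simp⟩).val, lt_of_lt_of_eq (f _).isLt hlen⟩,
      ⟨(f ⟨2, by simp⟩).val, lt_of_lt_of_eq (f _).isLt hlen⟩,
      ⟨(f ⟨3, by simp⟩).val, lt_of_lt_of_eq (f _).isLt hlen⟩, ?_, ?_, ?_, ?_, ?_, ?_, ?_⟩
    · rw [Fin.lt_def]
      exact Fin.lt_def.1 (f.strictMono (show (⟨0, by simp⟩ : Fin _) < ⟨1, by simp⟩ from by
        rw [Fin.lt_def]; norm_num))
    · rw [Fin.lt_def]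
      exact Fin.lt_def.1 (f.strictMono (show (⟨1, by simp⟩ : Fin _) < ⟨2, by simp⟩ from by
        rw [Fin.lt_def]; norm_num))
    · rw [Fin.lt_def]
      exact Fin.lt_def.1 (f.strictMono (show (⟨2, by simp⟩ : Fin _) < ⟨3, by simp⟩ from by
        rw [Fin.lt_def]; norm_num))
    · exact h0.symm
    · exact h1.symm
    · exact h2.symm
    · exact h3.symm
  · rintro ⟨i, j, k, l, hij, hjk, hkl, h0, h1, h2, h3⟩
    let g : Fin 4 → Fin (word π).length := fun t =>
      Fin.cast hlen.symm (![i, j, k, l] t)
    have hg : StrictMono g := by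
      rw [Fin.strictMono_iff_lt_succ]
      intro t
      fin_cases t
      · exact hij
      · exact hjk
      · exact hkl
    refine ⟨OrderEmbedding.ofStrictMono g hg, ?_⟩
    intro t
    have ht : t.val < 4 := t.isLt
    obtain ⟨t, ht'⟩ := t
    simp only [List.get_eq_getElem, getElem_word, OrderEmbedding.coe_ofStrictMono]
    simp only at ht
    interval_cases t
    · exact h0.symm
    · exact h1.symm
    · exact h2.symm
    · exact h3.symm

lemma pattern_iff {N : ℕ} (π : Equiv.Perm (Fin N)) (pat : Fin 4 → ℕ) :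
    (∃ f : Fin 4 → Fin N, StrictMono f ∧ ∀ a b : Fin 4, (π (f a) < π (f b) ↔ pat a < pat b)) ↔
    (∃ i j k l : Fin N, i < j ∧ j < k ∧ k < l ∧
      (∀ a b : Fin 4, ((![π i, π j, π k, π l] : Fin 4 → Fin N) a <
        (![π i, π j, π k, π l] : Fin 4 → Fin N) b ↔ pat a < pat b))) := by
  constructor
  · rintro ⟨f, hf, h⟩
    refine ⟨f 0, f 1, f 2, f 3, hf (by decide), hf (by decide), hf (by decide), ?_⟩
    intro a b
    have e : ∀ c : Fin 4, (![π (f 0), π (f 1), π (f 2), π (f 3)] : Fin 4 → Fin N) c = π (f c) := by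
      intro c; fin_cases c <;> rfl
    rw [e, e]
    exact h a b
  · rintro ⟨i, j, k, l, hij, hjk, hkl, h⟩
    refine ⟨![i, j, k, l], ?_, ?_⟩
    · rw [Fin.strictMono_iff_lt_succ]
      intro t
      fin_cases t
      · exact hij
      · exact hjk
      · exact hkl
    · intro a b
      have e : ∀ c : Fin 4, π ((![i, j, k, l] : Fin 4 → Fin N) c) =
          (![π i, π j, π k, π l] : Fin 4 → Fin N) c := by
        intro c; fin_cases c <;> rfl
      rw [e, e]
      exact h a b

lemma patA_iff {N : ℕ} (π : Equiv.Perm (Fin N)) :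
    (¬ ∃ f : Fin 4 → Fin N, StrictMono f ∧
      ∀ a b : Fin 4, (π (f a) < π (f b) ↔
        (![1, 0, 3, 2] : Fin 4 → ℕ) a < (![1, 0, 3, 2] : Fin 4 → ℕ) b)) ↔ avA (word π) := by
  rw [pattern_iff]
  constructor
  · intro h a b c d hs hab hbc hcd
    rw [sublist4] at hs
    obtain ⟨i, j, k, l, hij, hjk, hkl, h0, h1, h2, h3⟩ := hs
    apply h
    refine ⟨i, j, k, l, hij, hjk, hkl, ?_⟩
    intro s t
    rw [Fin.lt_def]
    fin_cases s <;> fin_cases t <;> simp [-Fin.val_fin_lt] <;> omega
  · rintro h ⟨i, j, k, l, hij, hjk, hkl, h'⟩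
    have h1 : π j < π i := (h' 1 0).2 (by simp)
    have h2 : π i < π l := (h' 0 3).2 (by simp)
    have h3 : π l < π k := (h' 3 2).2 (by simp)
    rw [Fin.lt_def] at h1 h2 h3
    exact h ((π j).val + 1) ((π i).val + 1) ((π l).val + 1) ((π k).val + 1)
      ((sublist4 π _ _ _ _).2 ⟨i, j, k, l, hij, hjk, hkl, rfl, rfl, rfl, rfl⟩)
      (by omega) (by omega) (by omega)

lemma patB_iff {N : ℕ} (π : Equiv.Perm (Fin N)) :
    (¬ ∃ f : Fin 4 → Fin N, StrictMono f ∧
      ∀ a b : Fin 4, (π (f a) < π (f b) ↔
        (![2, 3, 1, 0] : Fin 4 → ℕ) a < (![2, 3, 1, 0] : Fin 4 → ℕ) b)) ↔ avB (word π) := by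
  rw [pattern_iff]
  constructor
  · intro h a b c d hs hab hbc hcd
    rw [sublist4] at hs
    obtain ⟨i, j, k, l, hij, hjk, hkl, h0, h1, h2, h3⟩ := hs
    apply h
    refine ⟨i, j, k, l, hij, hjk, hkl, ?_⟩
    intro s t
    rw [Fin.lt_def]
    fin_cases s <;> fin_cases t <;> simp [-Fin.val_fin_lt] <;> omega
  · rintro h ⟨i, j, k, l, hij, hjk, hkl, h'⟩
    have h1 : π l < π k := (h' 3 2).2 (by simp)
    have h2 : π k < π i := (h' 2 0).2 (by simp)
    have h3 : π i < π j := (h' 0 1).2 (by simp)
    rw [Fin.lt_def] at h1 h2 h3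
    exact h ((π l).val + 1) ((π k).val + 1) ((π i).val + 1) ((π j).val + 1)
      ((sublist4 π _ _ _ _).2 ⟨i, j, k, l, hij, hjk, hkl, rfl, rfl, rfl, rfl⟩)
      (by omega) (by omega) (by omega)

theorem main_eq (m : ℕ) :
    {π : Equiv.Perm (Fin (m + 2)) |
        (∀ i : Fin (m + 2),
          (Even ((π i).val + 1) → ∃ j : Fin (m + 2), j.val = i.val + 1 ∧ π j < π i) ∧
          (Odd ((π i).val + 1) →
            (i.val + 1 = m + 2 ∨ ∃ j : Fin (m + 2), j.val = i.val + 1 ∧ π i < π j))) ∧
        ¬ ∃ f : Fin 4 → Fin (m + 2), StrictMono f ∧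
            ∀ a b : Fin 4, (π (f a) < π (f b) ↔
              (![1, 0, 3, 2] : Fin 4 → ℕ) a < (![1, 0, 3, 2] : Fin 4 → ℕ) b)}.ncard =
      {π : Equiv.Perm (Fin (m + 2)) |
        (∀ i : Fin (m + 2),
          (Even ((π i).val + 1) → ∃ j : Fin (m + 2), j.val = i.val + 1 ∧ π j < π i) ∧
          (Odd ((π i).val + 1) →
            (i.val + 1 = m + 2 ∨ ∃ j : Fin (m + 2), j.val = i.val + 1 ∧ π i < π j))) ∧
        ¬ ∃ f : Fin 4 → Fin (m + 2), StrictMono f ∧
            ∀ a b : Fin 4, (π (f a) < π (f b) ↔
              (![2, 3, 1, 0] : Fin 4 → ℕ) a < (![2, 3, 1, 0] : Fin 4 → ℕ) b)}.ncard := by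
  have hA := ncard_eq (N := m + 2) QA
  have hB := ncard_eq (N := m + 2) QB
  rw [count_eq m, ← hB] at hA
  have hAB := Int.natCast_inj.1 hA
  simp only [dumont_iff, patA_iff, patB_iff]
  have e1 : {π : Equiv.Perm (Fin (m + 2)) |
      (EC (word π) ∧ noOpen [] (word π)) ∧ avA (word π)} =
      {π : Equiv.Perm (Fin (m + 2)) | QA (word π)} := by
    apply Set.ext
    intro π
    show ((EC (word π) ∧ noOpen [] (word π)) ∧ avA (word π)) ↔ QA (word π)
    unfold QA clsA; tauto
  have e2 : {π : Equiv.Perm (Fin (m + 2)) |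
      (EC (word π) ∧ noOpen [] (word π)) ∧ avB (word π)} =
      {π : Equiv.Perm (Fin (m + 2)) | QB (word π)} := by
    apply Set.ext
    intro π
    show ((EC (word π) ∧ noOpen [] (word π)) ∧ avB (word π)) ↔ QB (word π)
    unfold QB clsB; tauto
  rw [e1, e2]
  exact hAB

end

end Pool.Agent.Lib.MP_911b3a_co
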