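import Mathlib

/-!
Linear operators on `ℤ[y][x]` used for the weighted generating trees of Dumont-1 permutations
avoiding `2143` and `3421`.
-/

open Polynomial

namespace Pool.Agent.Lib.MP_911b3a_co

noncomputable section

/-- inner ring `ℤ[y]` -/
abbrev RY := Polynomial ℤ
/-- outer ring `ℤ[y][x]` -/
abbrev K := Polynomial RY

/-- the variable `y` as an element of `ℤ[y]` -/
def yy : RY := Polynomial.X

/-- the variable `y` as an element of `K` -/
def Y : K := C yy

/-- substitution `x ↦ 1 + y` -/
def sg : K →+* K := C.comp (Polynomial.evalRingHom (1 + yy))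

lemma sg_C (q : RY) : sg (C q) = C q := by simp [sg]
lemma sg_X : sg X = 1 + Y := by simp [sg, Y]
lemma sg_Y : sg Y = Y := by simp [Y, sg_C]
lemma sg_isC (F : K) : ∃ q, sg F = C q := ⟨_, rfl⟩

/-- divided differences of the powers of `x` -/
def dseq : ℕ → K
  | 0 => 0
  | n + 1 => X * dseq n + sg (X ^ n)

/-- divided difference operator -/
def DD : K →ₗ[RY] K := Polynomial.lsum (fun n => LinearMap.toSpanSingleton RY K (dseq n))

lemma DD_monomial (n : ℕ) (q : RY) : DD (monomial n q) = C q * dseq n := by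
  simp only [DD, Polynomial.lsum_apply]
  rw [Polynomial.sum_monomial_index]
  · simp [LinearMap.toSpanSingleton_apply, Polynomial.smul_eq_C_mul]
  · simp

lemma DD_C (q : RY) : DD (C q) = 0 := by
  have := DD_monomial 0 q
  simpa [dseq] using this

lemma DD_X_mul (F : K) : DD (X * F) = X * DD F + sg F := by
  induction F using Polynomial.induction_on' with
  | add p q hp hq => rw [mul_add, map_add, hp, hq, map_add, map_add]; ring
  | monomial n a =>
    rw [Polynomial.X_mul_monomial, DD_monomial, DD_monomial, dseq]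
    have : (monomial n a : K) = C a * X ^ n := by rw [C_mul_X_pow_eq_monomial]
    rw [this, map_mul, sg_C]
    ring

/-- coefficientwise `q ↦ (q - q(0)) / y` -/
def dl : K →ₗ[ℤ] K :=
  Polynomial.lsum (fun n =>
    ((monomial n : RY →ₗ[RY] K).restrictScalars ℤ) ∘ₗ (divX_hom : RY →+ RY).toIntLinearMap)

lemma dl_monomial (n : ℕ) (q : RY) : dl (monomial n q) = monomial n (divX q) := by
  simp only [dl, Polynomial.lsum_apply]
  rw [Polynomial.sum_monomial_index]
  · simp
  · simp

lemma dl_C (q : RY) : dl (C q) = C (divX q) := by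
  have := dl_monomial 0 q
  simpa using this

lemma dl_X_mul (F : K) : dl (X * F) = X * dl F := by
  induction F using Polynomial.induction_on' with
  | add p q hp hq => rw [mul_add, map_add, hp, hq, map_add]; ring
  | monomial n a =>
    rw [Polynomial.X_mul_monomial, dl_monomial, dl_monomial, Polynomial.X_mul_monomial]

/-- the operator for the insertion of an odd maximum -/
def OO : K →+ K :=
  AddMonoidHom.id K + (AddMonoidHom.mulLeft (X * (X - 1) : K)).comp DD.toAddMonoidHom

lemma OO_apply (F : K) : OO F = F + X * (X - 1) * DD F := by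
  simp [OO]

/-- the operator for the insertion of an even maximum -/
def EE : K →+ K :=
  (AddMonoidHom.mulLeft (X : K)).comp DD.toAddMonoidHom + dl.toAddMonoidHom

lemma EE_apply (F : K) : EE F = X * DD F + dl F := by
  simp [EE]

lemma OO_C (q : RY) : OO (C q) = C q := by simp [OO_apply, DD_C]

lemma OO_X (F : K) : OO (X * F) = X * OO F + X * (X - 1) * sg F := by
  simp only [OO_apply, DD_X_mul]; ring

lemma OO_X1 (q : RY) : OO ((X - 1) * C q) = (X - 1) * (X + 1) * C q := by
  rw [sub_mul, one_mul, map_sub, OO_X, OO_C, sg_C]; ring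

lemma EE_C (q : RY) : EE (C q) = C (divX q) := by simp [EE_apply, DD_C, dl_C]

lemma EE_X (F : K) : EE (X * F) = X * EE F + X * sg F := by
  simp only [EE_apply, DD_X_mul, dl_X_mul]; ring

lemma EE_X1 (q : RY) : EE ((X - 1) * C q) = (X - 1) * C (divX q) + X * C q := by
  rw [sub_mul, one_mul, map_sub, EE_X, EE_C, sg_C]; ring

lemma divX_yy_mul (q : RY) : divX (yy * q) = q := by
  ext n
  simp [yy, coeff_divX, coeff_X_mul]

lemma EE_Y (q : RY) : EE (Y * C q) = C q := by
  rw [Y, ← C_mul, EE_C, divX_yy_mul]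

lemma EE_Y1 (q : RY) : EE ((1 + Y) * C q) = C q + C (divX q) := by
  rw [add_mul, one_mul, map_add, EE_Y, EE_C]; ring

/-- companion operators for the second class -/
def UU (F : K) : K := OO F - X * F + (X - 1) * sg F
def VV (F : K) : K := EE F + sg F

lemma UU_C (q : RY) : UU (C q) = 0 := by rw [UU, OO_C, sg_C]; ring
lemma UU_X (F : K) : UU (X * F) = X * UU F + (X - 1) * (1 + Y) * sg F := by
  rw [UU, OO_X, map_mul, sg_X, UU]; ring
lemma UU_X1 (q : RY) : UU ((X - 1) * C q) = (X - 1) * (1 + Y) * C q := by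
  rw [UU, OO_X1, map_mul, map_sub, sg_X, sg_C, map_one]; ring
lemma VV_C (q : RY) : VV (C q) = C q + C (divX q) := by rw [VV, EE_C, sg_C]; ring
lemma VV_X (F : K) : VV (X * F) = X * VV F + (1 + Y) * sg F := by
  rw [VV, EE_X, map_mul, sg_X, VV]; ring
lemma VV_X1 (q : RY) : VV ((X - 1) * C q) = (X - 1) * VV (C q) + (1 + Y) * C q := by
  rw [VV, EE_X1, VV_C, map_mul, map_sub, sg_X, sg_C, map_one]; ring
lemma VV_Y (q : RY) : VV (Y * C q) = (1 + Y) * C q := by
  rw [VV, EE_Y, map_mul, sg_Y, sg_C]; ring
lemma VV_Y1 (q : RY) : VV ((1 + Y) * C q) = (1 + Y) * C q + VV (C q) := by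
  rw [VV, EE_Y1, VV_C, map_mul, map_add, map_one, sg_Y, sg_C]; ring

/-- final evaluation `x = 1, y = 0` -/
def ev : K →+* ℤ := (Polynomial.evalRingHom (0 : ℤ)).comp (Polynomial.evalRingHom (1 : RY))

lemma ev_X : ev X = 1 := by simp [ev]
lemma ev_Y : ev Y = 0 := by simp [ev, Y, yy]

end

end Pool.Agent.Lib.MP_911b3a_co
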