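import Pool.Agent.Lib.MP_911b3a_co.Ops

/-!
Words as zippers `(ru, v)`: the word is `ru.reverse ++ v`.
-/

open Polynomial

namespace Pool.Agent.Lib.MP_911b3a_co

/-- the letter before the site is odd (or there is none) -/
def isValid : List ℕ → Prop
  | [] => True
  | a :: _ => a % 2 = 1

/-- the site lies between an odd letter and a smaller letter -/
def isOpen : List ℕ → List ℕ → Prop
  | a :: _, b :: _ => a % 2 = 1 ∧ b < a
  | _, _ => False

/-- even letters are followed by a smaller letter (in particular the last letter is odd) -/
def EC : List ℕ → Prop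
  | [] => True
  | a :: l => (a % 2 = 0 → ∃ c, l.head? = some c ∧ c < a) ∧ EC l

lemma EC_append_right : ∀ (u v : List ℕ), EC (u ++ v) → EC v
  | [], _, h => h
  | _ :: u, v, h => EC_append_right u v h.2

lemma isValid_append {a : ℕ} {l ru : List ℕ} : isValid ((a :: l) ++ ru) ↔ a % 2 = 1 := Iff.rfl

lemma EC_insert (x : ℕ) (v : List ℕ) (hv : ∀ a ∈ v, a < x) : ∀ (ru : List ℕ), (∀ a ∈ ru, a < x) →
    (EC (ru.reverseAux (x :: v)) ↔
      (EC (ru.reverseAux v) ∧ isValid ru ∧ (x % 2 = 0 → v ≠ []))) := by
  -- first a statement on plain lists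
  have key : ∀ (u : List ℕ), (∀ a ∈ u, a < x) →
      (EC (u ++ x :: v) ↔
        (EC (u ++ v) ∧ (∀ a, u.getLast? = some a → a % 2 = 1) ∧ (x % 2 = 0 → v ≠ []))) := by
    intro u
    induction u with
    | nil =>
      intro _
      simp only [List.nil_append, EC, List.getLast?_nil]
      constructor
      · rintro ⟨h1, h2⟩
        refine ⟨h2, by simp, ?_⟩
        intro hx hne
        obtain ⟨c, hc, _⟩ := h1 hx
        subst hne
        simp at hc
      · rintro ⟨h1, _, h3⟩
        refine ⟨?_, h1⟩
        intro hx
        cases v with
        | nil => exact absurd rfl (h3 hx)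
        | cons c v => exact ⟨c, rfl, hv c (by simp)⟩
    | cons a u ih =>
      intro hu
      have ih' := ih (fun b hb => hu b (by simp [hb]))
      simp only [List.cons_append, EC]
      rw [ih']
      cases u with
      | nil =>
        simp only [List.nil_append, List.head?_cons, List.getLast?_nil, List.getLast?_singleton]
        constructor
        · rintro ⟨h1, h2, h3, h4⟩
          have ha : a % 2 = 1 := by
            by_contra hne
            have : a % 2 = 0 := by omega
            obtain ⟨c, hc, hlt⟩ := h1 this
            have hax := hu a (by simp)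
            have : x = c := by simpa using hc
            omega
          refine ⟨⟨fun h => by omega, h2⟩, ?_, h4⟩
          intro b hb
          have : a = b := by simpa using hb
          omega
        · rintro ⟨⟨h1, h2⟩, h3, h4⟩
          have ha : a % 2 = 1 := h3 a rfl
          exact ⟨fun h => by omega, h2, by simp, h4⟩
      | cons b u =>
        simp only [List.cons_append, List.head?_cons, List.getLast?_cons_cons]
        tauto
  intro ru hru
  rw [List.reverseAux_eq, List.reverseAux_eq, key ru.reverse (by simpa using hru)]
  cases ru with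
  | nil => simp [isValid]
  | cons a l => simp [isValid]

/-- strictly increasing word seen from the site leftwards -/
def isInc (ru : List ℕ) : Prop := ru.Pairwise (fun a b => b ≤ a)

/-- weakly increasing suffix -/
def isIncV (v : List ℕ) : Prop := v.Pairwise (fun a b => a ≤ b)

/-- no open site in the part of the word at or to the right of the zipper position -/
def noOpen : List ℕ → List ℕ → Prop
  | _, [] => True
  | ru, c :: v => ¬ isOpen ru (c :: v) ∧ noOpen (c :: ru) v

lemma not_isInc {ru : List ℕ} (h : ¬ isInc ru) : ∃ a b, List.Sublist [a, b] ru ∧ a < b := by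
  by_contra hcon
  apply h
  unfold isInc
  rw [List.pairwise_iff_forall_sublist]
  intro a b hab
  by_contra hlt
  exact hcon ⟨a, b, hab, by omega⟩

lemma isInc_sub {ru : List ℕ} (h : isInc ru) {a b : ℕ} (hab : List.Sublist [a, b] ru) : b ≤ a := by
  unfold isInc at h
  rw [List.pairwise_iff_forall_sublist] at h
  exact h hab

lemma not_isIncV {v : List ℕ} (h : ¬ isIncV v) : ∃ a b, List.Sublist [a, b] v ∧ b < a := by
  by_contra hcon
  apply h
  unfold isIncV
  rw [List.pairwise_iff_forall_sublist]
  intro a b hab
  by_contra hlt
  exact hcon ⟨a, b, hab, by omega⟩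

lemma isIncV_sub {v : List ℕ} (h : isIncV v) {a b : ℕ} (hab : List.Sublist [a, b] v) : a ≤ b := by
  unfold isIncV at h
  rw [List.pairwise_iff_forall_sublist] at h
  exact h hab

/-- sum over all insertions, in zipper form -/
noncomputable def zsum (G : List ℕ → K) (x : ℕ) : List ℕ → List ℕ → K
  | ru, [] => G (ru.reverseAux [x])
  | ru, c :: v => G (ru.reverseAux (x :: c :: v)) + zsum G x (c :: ru) v

lemma zsum_eq (G : List ℕ → K) (x : ℕ) : ∀ (v ru : List ℕ),
    ((List.permutations'Aux x v).map (fun w => G (ru.reverseAux w))).sum = zsum G x ru v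
  | [], ru => by simp [zsum]
  | c :: v, ru => by
    have ih := zsum_eq G x v (c :: ru)
    simp only [List.permutations'Aux, List.map_cons, List.sum_cons, List.map_map, zsum]
    rw [← ih]
    rfl

/-- sum over all insertions to the left, in zipper form -/
noncomputable def zsumL (G : List ℕ → K) (x : ℕ) : List ℕ → List ℕ → K
  | [], v => G (x :: v)
  | c :: ru, v => G (ru.reverseAux (c :: x :: v)) + zsumL G x ru (c :: v)

/-- insertions strictly to the right -/
noncomputable def zsumR (G : List ℕ → K) (x : ℕ) : List ℕ → List ℕ → K
  | _, [] => 0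
  | ru, c :: v => zsum G x (c :: ru) v

lemma zsum_split (G : List ℕ → K) (x : ℕ) (ru v : List ℕ) :
    zsum G x ru v = G (ru.reverseAux (x :: v)) + zsumR G x ru v := by
  cases v <;> simp [zsum, zsumR]

lemma zsum_total (G : List ℕ → K) (x : ℕ) : ∀ (ru v : List ℕ),
    zsumL G x ru v + zsumR G x ru v = zsum G x [] (ru.reverseAux v)
  | [], v => by rw [zsum_split]; simp [zsumL, List.reverseAux]
  | c :: ru, v => by
    have ih := zsum_total G x ru (c :: v)
    have h0 : (c :: ru).reverseAux v = ru.reverseAux (c :: v) := rfl
    have h1 : zsumL G x (c :: ru) v = G (ru.reverseAux (c :: x :: v)) + zsumL G x ru (c :: v) := rfl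
    have h2 : zsumR G x ru (c :: v) = zsum G x (c :: ru) v := rfl
    have h3 : (c :: ru).reverseAux (x :: v) = ru.reverseAux (c :: x :: v) := rfl
    rw [h0, ← ih, h1, h2, zsum_split G x (c :: ru) v, h3]
    ring

end Pool.Agent.Lib.MP_911b3a_co
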